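import Pool.Agent.LibDimSpec.Machine

open scoped ENNReal
open MeasureTheory

namespace Pool.Agent.LibDimSpec

variable {U : List Bool →. List Bool} {code : ℚ × ℚ → List Bool}

/-- Euclidean distance bound used in `cpxAt`. -/
def Near (r : ℕ) (q : ℚ × ℚ) (z : ℝ × ℝ) : Prop :=
  Real.sqrt (((q.1 : ℝ) - z.1) ^ 2 + ((q.2 : ℝ) - z.2) ^ 2) < 2 ^ (-(r : ℤ))

theorem Near.fst {r : ℕ} {q : ℚ × ℚ} {z : ℝ × ℝ} (h : Near r q z) :
    |(q.1 : ℝ) - z.1| < 2 ^ (-(r : ℤ)) := by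
  refine lt_of_le_of_lt ?_ h
  rw [← Real.sqrt_sq_eq_abs]
  exact Real.sqrt_le_sqrt (by nlinarith [sq_nonneg ((q.2 : ℝ) - z.2)])

theorem Near.snd {r : ℕ} {q : ℚ × ℚ} {z : ℝ × ℝ} (h : Near r q z) :
    |(q.2 : ℝ) - z.2| < 2 ^ (-(r : ℤ)) := by
  refine lt_of_le_of_lt ?_ h
  rw [← Real.sqrt_sq_eq_abs]
  exact Real.sqrt_le_sqrt (by nlinarith [sq_nonneg ((q.1 : ℝ) - z.1)])

theorem near_of_fst_eq {r : ℕ} {q : ℚ × ℚ} {z : ℝ × ℝ} (h1 : (q.1 : ℝ) = z.1)
    (h2 : |(q.2 : ℝ) - z.2| < 2 ^ (-(r : ℤ))) : Near r q z := by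
  unfold Near
  rw [h1, sub_self, zero_pow two_ne_zero, zero_add, Real.sqrt_sq_eq_abs]
  exact h2

theorem near_of_lt {r : ℕ} {q : ℚ × ℚ} {z : ℝ × ℝ}
    (h1 : |(q.1 : ℝ) - z.1| < 2 ^ (-(r : ℤ)) / 2)
    (h2 : |(q.2 : ℝ) - z.2| < 2 ^ (-(r : ℤ)) / 2) : Near r q z := by
  unfold Near
  have hpos : (0 : ℝ) < 2 ^ (-(r : ℤ)) := by positivity
  rw [Real.sqrt_lt' hpos]
  have e1 : ((q.1 : ℝ) - z.1) ^ 2 < (2 ^ (-(r : ℤ)) / 2) ^ 2 := by
    rw [← sq_abs]
    exact pow_lt_pow_left₀ h1 (abs_nonneg _) two_ne_zero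
  have e2 : ((q.2 : ℝ) - z.2) ^ 2 < (2 ^ (-(r : ℤ)) / 2) ^ 2 := by
    rw [← sq_abs]
    exact pow_lt_pow_left₀ h2 (abs_nonneg _) two_ne_zero
  nlinarith

theorem cpxAt_le {r : ℕ} {q : ℚ × ℚ} {z : ℝ × ℝ} (h : Near r q z) :
    cpxAt U code r z ≤ cpx U (code q) :=
  Nat.sInf_le ⟨q, h, rfl⟩

theorem exists_near (r : ℕ) (z : ℝ × ℝ) : ∃ q : ℚ × ℚ, Near r q z := by
  have hpos : (0 : ℝ) < 2 ^ (-(r : ℤ)) / 2 := by positivity
  obtain ⟨q1, h1, h1'⟩ := exists_rat_btwn (show z.1 < z.1 + 2 ^ (-(r : ℤ)) / 2 by linarith)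
  obtain ⟨q2, h2, h2'⟩ := exists_rat_btwn (show z.2 < z.2 + 2 ^ (-(r : ℤ)) / 2 by linarith)
  refine ⟨(q1, q2), near_of_lt ?_ ?_⟩
  · rw [abs_of_pos (by simpa using h1)]; simp only; linarith
  · rw [abs_of_pos (by simpa using h2)]; simp only; linarith

theorem exists_cpxAt (U : List Bool →. List Bool) (code : ℚ × ℚ → List Bool)
    (r : ℕ) (z : ℝ × ℝ) : ∃ q : ℚ × ℚ, Near r q z ∧ cpx U (code q) = cpxAt U code r z := by
  have hne : {n : ℕ | ∃ q : ℚ × ℚ,
    Real.sqrt (((q.1 : ℝ) - z.1) ^ 2 + ((q.2 : ℝ) - z.2) ^ 2) < 2 ^ (-(r : ℤ)) ∧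
    cpx U (code q) = n}.Nonempty := by
    obtain ⟨q, hq⟩ := exists_near r z
    exact ⟨_, q, hq, rfl⟩
  exact Nat.sInf_mem hne

theorem Near.mono {r r' : ℕ} (hr : r ≤ r') {q : ℚ × ℚ} {z : ℝ × ℝ} (h : Near r' q z) :
    Near r q z := by
  refine lt_of_lt_of_le h ?_
  apply zpow_le_zpow_right₀ (by norm_num)
  omega

theorem cpxAt_mono {r r' : ℕ} (hr : r ≤ r') (z : ℝ × ℝ) :
    cpxAt U code r z ≤ cpxAt U code r' z := by
  obtain ⟨q, hq, hq'⟩ := exists_cpxAt U code r' z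
  rw [← hq']
  exact cpxAt_le (hq.mono hr)

/-- The strings of length less than `k`. -/
def progs (k : ℕ) : Finset (List Bool) :=
  (Finset.range k).biUnion fun i => (Finset.univ : Finset (Fin i → Bool)).image List.ofFn

theorem mem_progs {k : ℕ} {p : List Bool} : p ∈ progs k ↔ p.length < k := by
  unfold progs
  simp only [Finset.mem_biUnion, Finset.mem_range, Finset.mem_image, Finset.mem_univ, true_and]
  constructor
  · rintro ⟨i, hi, g, rfl⟩
    simpa using hi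
  · intro h
    exact ⟨p.length, h, p.get, List.ofFn_get p⟩

theorem card_progs (k : ℕ) : (progs k).card ≤ 2 ^ k := by
  unfold progs
  refine le_trans Finset.card_biUnion_le ?_
  have : ∀ i ∈ Finset.range k,
      ((Finset.univ : Finset (Fin i → Bool)).image List.ofFn).card ≤ 2 ^ i := by
    intro i _
    refine le_trans Finset.card_image_le ?_
    simp
  refine le_trans (Finset.sum_le_sum this) ?_
  clear this
  induction k with
  | zero => simp
  | succ k ih =>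
    rw [Finset.sum_range_succ, pow_succ]
    omega

open Classical in
/-- Cheap rational vectors are few. -/
theorem cheap_finite (hU : UniversalPrefixFree U) (hcode : ComputableCoding code) (k : ℕ) :
    ∃ S : Finset (ℚ × ℚ), S.card ≤ 2 ^ k ∧ ∀ q, cpx U (code q) < k → q ∈ S := by
  let out : List Bool → ℚ × ℚ := fun p =>
    if h : ∃ q, code q ∈ U p then h.choose else (0, 0)
  refine ⟨(progs k).image out, le_trans Finset.card_image_le (card_progs k), fun q hq => ?_⟩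
  obtain ⟨p, hp, hw⟩ := exists_program hU (code q)
  refine Finset.mem_image.2 ⟨p, mem_progs.2 (by omega), ?_⟩
  have h : ∃ q, code q ∈ U p := ⟨q, hw⟩
  have h2 : out p = h.choose := dif_pos h
  rw [h2]
  exact hcode.injective (Part.mem_unique h.choose_spec hw)

/-- The set of abscissae of cheap points of a graph is open. -/
theorem isOpen_cheap {f : ℝ → ℝ} (hf : Continuous f) (r k : ℕ) :
    IsOpen {x : ℝ | cpxAt U code r (x, f x) < k} := by
  have h : {x : ℝ | cpxAt U code r (x, f x) < k} =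
      ⋃ q ∈ {q : ℚ × ℚ | cpx U (code q) < k}, {x : ℝ | Near r q (x, f x)} := by
    ext x
    simp only [Set.mem_ofPred_eq, Set.mem_iUnion, exists_prop]
    constructor
    · intro hx
      obtain ⟨q, hq, hq'⟩ := exists_cpxAt U code r (x, f x)
      exact ⟨q, by omega, hq⟩
    · rintro ⟨q, hq, hq'⟩
      exact lt_of_le_of_lt (cpxAt_le hq') hq
  rw [h]
  refine isOpen_biUnion fun q _ => ?_
  unfold Near
  exact isOpen_lt (by fun_prop) continuous_const

/-- The set of abscissae of cheap points of a graph has small measure. -/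
theorem volume_cheap (hU : UniversalPrefixFree U) (hcode : ComputableCoding code)
    (f : ℝ → ℝ) (r k : ℕ) :
    volume {x : ℝ | cpxAt U code r (x, f x) < k} ≤
      ENNReal.ofReal (2 ^ k * (2 * 2 ^ (-(r : ℤ)))) := by
  obtain ⟨S, hS, hmem⟩ := cheap_finite hU hcode k
  have hsub : {x : ℝ | cpxAt U code r (x, f x) < k} ⊆
      ⋃ q ∈ S, Metric.ball (q.1 : ℝ) (2 ^ (-(r : ℤ))) := by
    intro x hx
    obtain ⟨q, hq, hq'⟩ := exists_cpxAt U code r (x, f x)
    refine Set.mem_biUnion (hmem q ?_) ?_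
    · rw [hq']; exact hx
    · rw [Metric.mem_ball, dist_comm, Real.dist_eq]
      exact hq.fst
  refine le_trans (measure_mono hsub) (le_trans (measure_biUnion_finset_le S _) ?_)
  simp only [Real.volume_ball]
  rw [Finset.sum_const, nsmul_eq_mul, ENNReal.ofReal_mul (p := 2 ^ k) (by positivity)]
  have h1 : (S.card : ℝ≥0∞) ≤ ENNReal.ofReal (2 ^ k) := by
    rw [← ENNReal.ofReal_natCast]
    apply ENNReal.ofReal_le_ofReal
    exact_mod_cast hS
  exact mul_le_mul' h1 le_rfl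

end Pool.Agent.LibDimSpec
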