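import Pool.Agent.LibDimSpec.Bounds

namespace Pool.Agent.LibDimSpec

theorem close_int {C n z y : ℕ} (hz : z.unpair.1 ≤ 2 ^ (30 * n)) (h : close C n z y) :
    |(2 : ℤ) ^ (30 * n) * z.unpair.2 - (2 ^ (30 * n) - z.unpair.1) * y.unpair.1
      - z.unpair.1 * y.unpair.2| ≤ C * 2 ^ (30 * n) := by
  obtain ⟨h1, h2⟩ := h
  zify [hz] at h1 h2
  rw [abs_le]
  constructor <;> linarith

/-- Two distant cells determine a line up to a small error. -/
theorem close_close {C n D q z1 z2 y y' : ℕ} (hq : 2 ^ (30 * n) ≤ q * D) (hD : 1 ≤ D)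
    (hz1 : z1.unpair.1 < 2 ^ (30 * n)) (hz2 : z2.unpair.1 < 2 ^ (30 * n))
    (hfar : D ≤ z2.unpair.1 - z1.unpair.1)
    (h1 : close C n z1 y) (h2 : close C n z2 y) (h1' : close C n z1 y')
    (h2' : close C n z2 y') :
    |(y.unpair.1 : ℤ) - y'.unpair.1| ≤ 2 * C + 8 * C * q ∧
    |(y.unpair.2 : ℤ) - y'.unpair.2| ≤ 2 * C + 8 * C * q := by
  have a1 := close_int hz1.le h1
  have a2 := close_int hz2.le h2
  have a1' := close_int hz1.le h1'
  have a2' := close_int hz2.le h2'
  have hq' : (2 : ℤ) ^ (30 * n) ≤ q * D := by exact_mod_cast hq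
  have hD' : (1 : ℤ) ≤ D := by exact_mod_cast hD
  have hz1' : (z1.unpair.1 : ℤ) < 2 ^ (30 * n) := by exact_mod_cast hz1
  have hz2' : (z2.unpair.1 : ℤ) < 2 ^ (30 * n) := by exact_mod_cast hz2
  have hfar' : (D : ℤ) ≤ z2.unpair.1 - z1.unpair.1 := by
    have : z1.unpair.1 ≤ z2.unpair.1 := by omega
    have h3 : D + z1.unpair.1 ≤ z2.unpair.1 := by omega
    have h4 : (D : ℤ) + z1.unpair.1 ≤ z2.unpair.1 := by exact_mod_cast h3
    linarith
  have hh : (1 : ℤ) ≤ 2 ^ (30 * n) := one_le_pow₀ (by norm_num)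
  generalize (2 : ℤ) ^ (30 * n) = h at *
  generalize ((y.unpair.1 : ℕ) : ℤ) = A at *
  generalize ((y.unpair.2 : ℕ) : ℤ) = E at *
  generalize ((y'.unpair.1 : ℕ) : ℤ) = A' at *
  generalize ((y'.unpair.2 : ℕ) : ℤ) = E' at *
  have hj1 : (0 : ℤ) ≤ z1.unpair.1 := by positivity
  have hj2 : (0 : ℤ) ≤ z2.unpair.1 := by positivity
  have hq0 : (0 : ℤ) ≤ q := by positivity
  have hC0 : (0 : ℤ) ≤ C := by positivity
  generalize ((z1.unpair.1 : ℕ) : ℤ) = j1 at *
  generalize ((z1.unpair.2 : ℕ) : ℤ) = k1 at *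
  generalize ((z2.unpair.1 : ℕ) : ℤ) = j2 at *
  generalize ((z2.unpair.2 : ℕ) : ℤ) = k2 at *
  generalize (q : ℤ) = q at *
  generalize (D : ℤ) = D at *
  generalize (C : ℤ) = C at *
  rw [abs_le] at a1 a2 a1' a2'
  -- differences
  have b1 : |h * (A - A') + j1 * ((E - E') - (A - A'))| ≤ 2 * C * h := by
    rw [abs_le]; constructor <;> nlinarith [a1.1, a1.2, a1'.1, a1'.2]
  have b2 : |h * (A - A') + j2 * ((E - E') - (A - A'))| ≤ 2 * C * h := by
    rw [abs_le]; constructor <;> nlinarith [a2.1, a2.2, a2'.1, a2'.2]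
  generalize (A - A') = α at *
  generalize (E - E') = β at *
  have b3 : |(j2 - j1) * (β - α)| ≤ 4 * C * h := by
    have : (j2 - j1) * (β - α) = (h * α + j2 * (β - α)) - (h * α + j1 * (β - α)) := by ring
    rw [this]
    refine le_trans (abs_sub _ _) ?_
    linarith
  have b4 : |β - α| ≤ 4 * C * q := by
    rw [abs_mul, abs_of_nonneg (by linarith : (0 : ℤ) ≤ j2 - j1)] at b3
    by_contra hcon
    push Not at hcon
    have e1 : D * |β - α| ≤ (j2 - j1) * |β - α| :=
      mul_le_mul_of_nonneg_right hfar' (abs_nonneg _)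
    have e2 : 4 * C * h ≤ 4 * C * (q * D) :=
      mul_le_mul_of_nonneg_left hq' (by linarith)
    have e3 : D * (4 * C * q) < D * |β - α| :=
      mul_lt_mul_of_pos_left hcon (by linarith)
    nlinarith
  have b5 : |α| ≤ 2 * C + 4 * C * q := by
    by_contra hcon
    push Not at hcon
    have e1 : h * |α| ≤ 2 * C * h + j1 * |β - α| := by
      have : h * α = (h * α + j1 * (β - α)) - j1 * (β - α) := by ring
      have e := abs_sub (h * α + j1 * (β - α)) (j1 * (β - α))
      rw [← this, abs_mul, abs_mul, abs_of_nonneg hj1, abs_of_nonneg (by linarith : (0 : ℤ) ≤ h)] at e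
      linarith
    have e2 : j1 * |β - α| ≤ h * (4 * C * q) :=
      mul_le_mul hz1'.le b4 (abs_nonneg _) (by linarith)
    have e3 : h * (2 * C + 4 * C * q) < h * |α| :=
      mul_lt_mul_of_pos_left hcon (by linarith)
    nlinarith
  have hCq : 0 ≤ C * q := mul_nonneg hC0 hq0
  constructor
  · linarith
  · have : β = α + (β - α) := by ring
    rw [this]
    refine le_trans (abs_add_le _ _) ?_
    linarith

theorem card_box {S : Finset ℕ} {W : ℕ}
    (h : ∀ y ∈ S, ∀ y' ∈ S, |(y.unpair.1 : ℤ) - y'.unpair.1| ≤ W ∧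
      |(y.unpair.2 : ℤ) - y'.unpair.2| ≤ W) : S.card ≤ (2 * W + 1) ^ 2 := by
  rcases S.eq_empty_or_nonempty with rfl | ⟨y0, hy0⟩
  · simp
  · have hinj : Set.InjOn (fun y : ℕ => y.unpair) (S : Set ℕ) := by
      intro a _ b _ hab
      have := congrArg (fun p : ℕ × ℕ => Nat.pair p.1 p.2) hab
      simpa using this
    rw [← Finset.card_image_of_injOn hinj]
    have hsub : S.image (fun y : ℕ => y.unpair) ⊆
        (Finset.Icc (y0.unpair.1 - W) (y0.unpair.1 + W)) ×ˢ
        (Finset.Icc (y0.unpair.2 - W) (y0.unpair.2 + W)) := by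
      intro p hp
      obtain ⟨y, hy, rfl⟩ := Finset.mem_image.1 hp
      obtain ⟨h1, h2⟩ := h y hy y0 hy0
      rw [abs_le] at h1 h2
      simp only [Finset.mem_product, Finset.mem_Icc]
      omega
    refine le_trans (Finset.card_le_card hsub) ?_
    rw [Finset.card_product, Nat.card_Icc, Nat.card_Icc, sq]
    apply Nat.mul_le_mul <;> omega

theorem mem_hits {C n : ℕ} {l : List ℕ} {y j : ℕ} :
    j ∈ hits C n l y ↔ j < 2 ^ (30 * n) ∧ ∃ z ∈ l, z.unpair.1 = j ∧ close C n z y := by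
  unfold hits
  rw [List.mem_filter, List.mem_range, decide_eq_true_iff]

theorem nodup_hits (C n : ℕ) (l : List ℕ) (y : ℕ) : (hits C n l y).Nodup :=
  List.nodup_range.filter _

/-- There are few rich lines. -/
theorem rich_count {C n B N D q : ℕ} {l : List ℕ} (hB : l.toFinset.card ≤ B)
    (R : Finset ℕ) (hR : ∀ y ∈ R, N ≤ (hits C n l y).length)
    (hq : 2 ^ (30 * n) ≤ q * D) (hD : 1 ≤ D) :
    R.card * (N * (N - (2 * D - 1))) ≤
      B ^ 2 * (2 * (2 * (2 * C + 8 * C * q) + 1) ^ 2) := by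
  classical
  set P : Finset ℕ := l.toFinset.filter fun z => z.unpair.1 < 2 ^ (30 * n) with hP
  have hPB : P.card ≤ B := le_trans (Finset.card_filter_le _ _) hB
  let r : ℕ → ℕ × ℕ → Prop := fun y p =>
    close C n p.1 y ∧ close C n p.2 y ∧
      (D ≤ p.2.unpair.1 - p.1.unpair.1 ∨ D ≤ p.1.unpair.1 - p.2.unpair.1)
  have hdc := Finset.sum_card_bipartiteAbove_eq_sum_card_bipartiteBelow
    (s := R) (t := P ×ˢ P) r
  have hlow : R.card * (N * (N - (2 * D - 1))) ≤
      ∑ y ∈ R, ((P ×ˢ P).bipartiteAbove r y).card := by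
    rw [← smul_eq_mul, ← Finset.sum_const]
    refine Finset.sum_le_sum fun y hy => ?_
    set Py := P.filter fun z => close C n z y with hPy
    have hJ : N ≤ (Py.image fun z => z.unpair.1).card := by
      refine le_trans (hR y hy) ?_
      rw [← List.toFinset_card_of_nodup (nodup_hits C n l y)]
      refine Finset.card_le_card fun j hj => ?_
      rw [List.mem_toFinset, mem_hits] at hj
      obtain ⟨hj, z, hz, hzj, hzc⟩ := hj
      refine Finset.mem_image.2 ⟨z, ?_, hzj⟩
      rw [hPy, Finset.mem_filter, hP, Finset.mem_filter, List.mem_toFinset]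
      exact ⟨⟨hz, by omega⟩, hzc⟩
    have hcardPy : N ≤ Py.card := le_trans hJ Finset.card_image_le
    have hinner : ∀ z1 ∈ Py, N - (2 * D - 1) ≤ (Py.filter fun z2 =>
        (D ≤ z2.unpair.1 - z1.unpair.1 ∨ D ≤ z1.unpair.1 - z2.unpair.1)).card := by
      intro z1 _
      set Q := Py.filter fun z2 =>
        (D ≤ z2.unpair.1 - z1.unpair.1 ∨ D ≤ z1.unpair.1 - z2.unpair.1) with hQ
      have hsub : (Py.image fun z => z.unpair.1) ⊆
          (Q.image fun z => z.unpair.1) ∪
            Finset.Ico (z1.unpair.1 + 1 - D) (z1.unpair.1 + D) := by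
        intro j hj
        obtain ⟨z, hz, rfl⟩ := Finset.mem_image.1 hj
        rw [Finset.mem_union]
        by_cases hfar : D ≤ z.unpair.1 - z1.unpair.1 ∨ D ≤ z1.unpair.1 - z.unpair.1
        · left
          exact Finset.mem_image.2 ⟨z, Finset.mem_filter.2 ⟨hz, hfar⟩, rfl⟩
        · right
          rw [Finset.mem_Ico]
          omega
      have h1 := le_trans (Finset.card_le_card hsub) (Finset.card_union_le _ _)
      rw [Nat.card_Ico] at h1
      have h2 : (Q.image fun z => z.unpair.1).card ≤ Q.card := Finset.card_image_le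
      omega
    have hsub : (Py.sigma fun z1 => Py.filter fun z2 =>
        (D ≤ z2.unpair.1 - z1.unpair.1 ∨ D ≤ z1.unpair.1 - z2.unpair.1)).card ≤
        ((P ×ˢ P).bipartiteAbove r y).card := by
      refine Finset.card_le_card_of_injOn (fun x => (x.1, x.2)) ?_ ?_
      · rintro ⟨z1, z2⟩ hz
        simp only [Finset.coe_sigma, Set.mem_sigma_iff, Finset.mem_coe, Finset.mem_filter] at hz
        simp only [Finset.mem_coe, Finset.mem_bipartiteAbove, Finset.mem_product]
        obtain ⟨h1, h2, h3⟩ := hz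
        rw [hPy, Finset.mem_filter] at h1 h2
        exact ⟨⟨h1.1, h2.1⟩, h1.2, h2.2, h3⟩
      · rintro ⟨a, b⟩ _ ⟨a', b'⟩ _ hab
        simp only [Prod.mk.injEq] at hab
        obtain ⟨rfl, rfl⟩ := hab
        rfl
    refine le_trans ?_ hsub
    rw [Finset.card_sigma]
    refine le_trans (Nat.mul_le_mul_right _ hcardPy) ?_
    have hs := Finset.sum_le_sum hinner
    rwa [Finset.sum_const, smul_eq_mul] at hs
  have hup : ∑ p ∈ P ×ˢ P, (R.bipartiteBelow r p).card ≤
      B ^ 2 * (2 * (2 * (2 * C + 8 * C * q) + 1) ^ 2) := by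
    have hX : ∀ p ∈ P ×ˢ P, (R.bipartiteBelow r p).card ≤
        2 * (2 * (2 * C + 8 * C * q) + 1) ^ 2 := by
      rintro ⟨z1, z2⟩ hp
      rw [Finset.mem_product] at hp
      obtain ⟨hz1, hz2⟩ := hp
      rw [hP, Finset.mem_filter] at hz1 hz2
      have : (R.bipartiteBelow r (z1, z2)).card ≤ (2 * (2 * C + 8 * C * q) + 1) ^ 2 := by
        refine card_box fun y hy y' hy' => ?_
        rw [Finset.mem_bipartiteBelow] at hy hy'
        obtain ⟨-, h1, h2, h3⟩ := hy
        obtain ⟨-, h1', h2', h3'⟩ := hy'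
        simp only at h1 h2 h3 h1' h2'
        push_cast
        rcases h3 with h3 | h3
        · exact close_close hq hD hz1.2 hz2.2 h3 h1 h2 h1' h2'
        · exact close_close hq hD hz2.2 hz1.2 h3 h2 h1 h2' h1'
      omega
    refine le_trans (Finset.sum_le_sum hX) ?_
    rw [Finset.sum_const, smul_eq_mul, Finset.card_product]
    have hBB : P.card * P.card ≤ B ^ 2 := by rw [sq]; exact Nat.mul_le_mul hPB hPB
    exact Nat.mul_le_mul_right _ hBB
  rw [hdc] at hlow
  exact le_trans hlow hup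

end Pool.Agent.LibDimSpec
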