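import Pool.Agent.LibDimSpec.Rich

open Encodable

namespace Pool.Agent.LibDimSpec

variable {U : List Bool →. List Bool} {code : ℚ × ℚ → List Bool}

theorem ratOf_surj (q : ℚ) : ∃ t, ratOf t = q := by
  refine ⟨(decide (q < 0), q.num.natAbs, q.den - 1), ?_⟩
  have hden : ((q.den - 1 : ℕ) : ℚ) + 1 = q.den := by
    have := q.den_pos
    rw [Nat.cast_sub (by omega)]; simp
  unfold ratOf
  simp only [hden]
  have hq : (q.num : ℚ) / q.den = q := Rat.num_div_den q
  by_cases h : q < 0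
  · have hn : q.num < 0 := Rat.num_neg.2 h
    have : ((q.num.natAbs : ℕ) : ℚ) = -(q.num : ℚ) := by
      rw [Nat.cast_natAbs, abs_of_neg hn]; simp
    simp only [h, decide_true, if_true, this]
    rw [neg_one_mul, neg_neg, hq]
  · have hn : 0 ≤ q.num := Rat.num_nonneg.2 (not_lt.1 h)
    have : ((q.num.natAbs : ℕ) : ℚ) = (q.num : ℚ) := by
      rw [Nat.cast_natAbs, abs_of_nonneg hn]
    simp only [h, decide_false, this]
    simp [hq]

theorem vecOf_surj (q : ℚ × ℚ) : ∃ t, vecOf t = q := by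
  obtain ⟨t1, h1⟩ := ratOf_surj q.1
  obtain ⟨t2, h2⟩ := ratOf_surj q.2
  exact ⟨(t1, t2), by unfold vecOf; simp [h1, h2]⟩

/-- Search for a presentation of a coded vector. -/
def lookup (code : ℚ × ℚ → List Bool) (w : List Bool) : Part Pres :=
  Nat.rfindOpt fun k => (decode (α := Pres) k).bind fun t =>
    if code (vecOf t) = w then some t else none

theorem partrec_lookup (hcode : ComputableCoding code) : Partrec (lookup code) := by
  unfold lookup
  refine Partrec.rfindOpt ?_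
  refine Computable.option_bind (f := fun a : List Bool × ℕ => decode (α := Pres) a.2)
    (g := fun (a : List Bool × ℕ) (t : Pres) => if code (vecOf t) = a.1 then some t else none)
    (Computable.decode.comp Computable.snd) ?_
  have h1 : Computable fun a : (List Bool × ℕ) × Pres => decide (code (vecOf a.2) = a.1.1) :=
    (Primrec.eq (α := List Bool)).decide.to_comp.comp (hcode.computable.comp Computable.snd)
      (Computable.fst.comp Computable.fst)
  refine (Computable.cond h1 (Computable.option_some.comp Computable.snd)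
    (Computable.const none)).of_eq fun a => ?_
  by_cases h : code (vecOf a.2) = a.1.1 <;> simp [h]

theorem lookup_spec (hcode : ComputableCoding code) (q : ℚ × ℚ) :
    ∃ t ∈ lookup code (code q), vecOf t = q := by
  obtain ⟨t0, ht0⟩ := vecOf_surj q
  have hdom : (lookup code (code q)).Dom := by
    unfold lookup
    rw [Nat.rfindOpt_dom]
    exact ⟨encode t0, t0, by simp [ht0]⟩
  obtain ⟨t, ht⟩ := Part.dom_iff_mem.1 hdom
  refine ⟨t, ht, ?_⟩
  obtain ⟨k, hk⟩ := Nat.rfindOpt_spec ht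
  rw [Option.mem_def, Option.bind_eq_some_iff] at hk
  obtain ⟨t', -, hk⟩ := hk
  split_ifs at hk with h
  obtain rfl := Option.some.inj hk
  exact hcode.injective h

/-- There is a code computing presentations of outputs of `U`. -/
theorem exists_decoder (hU : UniversalPrefixFree U) (hcode : ComputableCoding code) :
    ∃ c : Nat.Partrec.Code, ∀ p q, code q ∈ U p →
      ∃ t : Pres, vecOf t = q ∧ encode t ∈ c.eval (encode p) := by
  have hG : Partrec fun p => (U p).bind (lookup code) :=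
    Partrec.bind hU.partrec ((partrec_lookup hcode).comp Computable.snd)
  obtain ⟨c, hc⟩ := Nat.Partrec.Code.exists_code.1 hG
  refine ⟨c, fun p q hq => ?_⟩
  obtain ⟨t, ht, htq⟩ := lookup_spec hcode q
  refine ⟨t, htq, ?_⟩
  rw [hc]
  simp only [encodek, Part.coe_some, Part.bind_some, Part.mem_map_iff]
  exact ⟨t, Part.mem_bind_iff.2 ⟨_, hq, ht⟩, rfl⟩

theorem cell_eq {n i : ℕ} {t : Pres} (h1 : 0 < (vecOf t).1)
    (h2 : ⌊(vecOf t).1 * 2 ^ (60 * n)⌋₊ / 2 ^ (30 * n) = i) :
    cell n i t = some (Nat.pair (⌊(vecOf t).1 * 2 ^ (60 * n)⌋₊ % 2 ^ (30 * n))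
      ⌊|(vecOf t).2| * 2 ^ (60 * n)⌋₊) := by
  obtain ⟨⟨s1, a1, b1⟩, ⟨s2, a2, b2⟩⟩ := t
  have hs : s1 = false := by
    by_contra hs
    rw [Bool.not_eq_false] at hs
    subst hs
    unfold vecOf ratOf at h1
    simp only [if_true] at h1
    have : (0 : ℚ) ≤ (a1 : ℚ) / ((b1 : ℚ) + 1) := by positivity
    rw [mul_div_assoc] at h1
    linarith
  subst hs
  have e1 : ⌊(vecOf ((false, a1, b1), (s2, a2, b2))).1 * 2 ^ (60 * n)⌋₊ =
      a1 * 2 ^ (60 * n) / (b1 + 1) := by
    rw [← Nat.floor_div_eq_div (K := ℚ)]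
    congr 1
    have hr : ratOf (false, a1, b1) = (a1 : ℚ) / ((b1 : ℚ) + 1) := by
      unfold ratOf
      simp
    show ratOf (false, a1, b1) * 2 ^ (60 * n) = _
    rw [hr]
    push_cast
    ring
  have e2 : ⌊|(vecOf ((false, a1, b1), (s2, a2, b2))).2| * 2 ^ (60 * n)⌋₊ =
      a2 * 2 ^ (60 * n) / (b2 + 1) := by
    rw [← Nat.floor_div_eq_div (K := ℚ)]
    congr 1
    have habs : |ratOf (s2, a2, b2)| = (a2 : ℚ) / ((b2 : ℚ) + 1) := by
      unfold ratOf
      rw [mul_div_assoc, abs_mul]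
      have h3 : (0 : ℚ) ≤ (a2 : ℚ) / ((b2 : ℚ) + 1) := by positivity
      rw [abs_of_nonneg h3]
      cases s2 <;> simp
    show |ratOf (s2, a2, b2)| * 2 ^ (60 * n) = _
    rw [habs]
    push_cast
    ring
  rw [e1] at h2 ⊢
  rw [e2]
  unfold cell
  simp [h2]

theorem mem_full_of_cheap {c : Nat.Partrec.Code} (hU : UniversalPrefixFree U)
    (hc : ∀ p q, code q ∈ U p → ∃ t : Pres, vecOf t = q ∧ encode t ∈ c.eval (encode p))
    {b n i : ℕ} {q : ℚ × ℚ} (hq : cpx U (code q) < 63 * n) (h1 : 0 < q.1)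
    (h2 : ⌊q.1 * 2 ^ (60 * n)⌋₊ / 2 ^ (30 * n) = i)
    (h3 : ⌊|q.2| * 2 ^ (60 * n)⌋₊ < 2 ^ (60 * n + b)) :
    Nat.pair (⌊q.1 * 2 ^ (60 * n)⌋₊ % 2 ^ (30 * n)) ⌊|q.2| * 2 ^ (60 * n)⌋₊ ∈
      full c b n i := by
  rw [mem_full]
  constructor
  · refine lt_of_lt_of_le (Nat.pair_lt_max_add_one_sq _ _) ?_
    unfold bound
    rw [mul_comm 2 (60 * n + b), pow_mul 2 (60 * n + b) 2]
    refine Nat.pow_le_pow_left ?_ 2
    rw [Nat.succ_le_iff]
    refine max_lt ?_ h3
    refine lt_of_lt_of_le (Nat.mod_lt _ (by positivity)) ?_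
    exact Nat.pow_le_pow_right (by norm_num) (by omega)
  · obtain ⟨p, hp, hw⟩ := exists_program hU (code q)
    obtain ⟨t, rfl, ht⟩ := hc p q hw
    obtain ⟨m, hm⟩ := Nat.Partrec.Code.evaln_complete.1 ht
    refine ⟨m, encode p, ?_⟩
    rw [Option.mem_def] at hm
    unfold test run cellOf
    simp only [encodek, Option.bind_some, hm, hp, hq, if_true]
    exact cell_eq h1 h2

end Pool.Agent.LibDimSpec
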