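import Mathlib

/-!
Prefix-free Kolmogorov complexity, complexity of points of the plane at a given
precision, effective Hausdorff dimension and dimension spectra.
-/

open scoped ENNReal

namespace Pool.Agent.LibDimSpec

/-- The domain of `M` contains no two distinct strings one of which is an initial
segment of the other. -/
def PrefixFree (M : List Bool →. List Bool) : Prop :=
  ∀ p q : List Bool, (M p).Dom → (M q).Dom → p <+: q → p = q

/-- `U` is a universal (additively optimal) prefix-free machine: it is partial
computable, has prefix-free domain, and simulates every prefix-free partial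
computable machine with programs longer by at most a constant. -/
structure UniversalPrefixFree (U : List Bool →. List Bool) : Prop where
  partrec : Partrec U
  prefixFree : PrefixFree U
  optimal : ∀ M : List Bool →. List Bool, Partrec M → PrefixFree M →
    ∃ c : ℕ, ∀ p w, w ∈ M p → ∃ p', w ∈ U p' ∧ p'.length ≤ p.length + c

/-- Prefix-free Kolmogorov complexity with respect to `U`. -/
noncomputable def cpx (U : List Bool →. List Bool) (w : List Bool) : ℕ :=
  sInf {n : ℕ | ∃ p : List Bool, p.length = n ∧ w ∈ U p}

/-- The rational number presented by a sign, a numerator and a denominator minus one. -/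
def ratOf (t : Bool × ℕ × ℕ) : ℚ :=
  (if t.1 then -1 else 1) * (t.2.1 : ℚ) / ((t.2.2 : ℚ) + 1)

/-- The rational vector presented by a pair of presentations of rationals. -/
def vecOf (t : (Bool × ℕ × ℕ) × (Bool × ℕ × ℕ)) : ℚ × ℚ :=
  (ratOf t.1, ratOf t.2)

/-- A computable binary coding of `ℚ × ℚ`: an injective map to binary strings that is
computed from (not necessarily reduced) fractions. -/
structure ComputableCoding (code : ℚ × ℚ → List Bool) : Prop where
  injective : Function.Injective code
  computable : Computable fun t : (Bool × ℕ × ℕ) × (Bool × ℕ × ℕ) => code (vecOf t)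

/-- Kolmogorov complexity of `z : ℝ × ℝ` at precision `r`: the least complexity of a
rational vector at Euclidean distance less than `2 ^ (-r)` from `z`. -/
noncomputable def cpxAt (U : List Bool →. List Bool) (code : ℚ × ℚ → List Bool)
    (r : ℕ) (z : ℝ × ℝ) : ℕ :=
  sInf {n : ℕ | ∃ q : ℚ × ℚ,
    Real.sqrt (((q.1 : ℝ) - z.1) ^ 2 + ((q.2 : ℝ) - z.2) ^ 2) < 2 ^ (-(r : ℤ)) ∧
    cpx U (code q) = n}

/-- Effective Hausdorff dimension of a point of the plane. -/
noncomputable def effDim (U : List Bool →. List Bool) (code : ℚ × ℚ → List Bool)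
    (z : ℝ × ℝ) : ℝ≥0∞ :=
  Filter.liminf (fun r : ℕ => (cpxAt U code r z : ℝ≥0∞) / (r : ℝ≥0∞)) Filter.atTop

/-- The dimension spectrum of a set of points of the plane. -/
noncomputable def spectrum (U : List Bool →. List Bool) (code : ℚ × ℚ → List Bool)
    (S : Set (ℝ × ℝ)) : Set ℝ≥0∞ :=
  effDim U code '' S

/-- The graph of a real function. -/
def graph (f : ℝ → ℝ) : Set (ℝ × ℝ) := {z | z.2 = f z.1}

/-- Trigonometric polynomials. -/
def IsTrigPoly (f : ℝ → ℝ) : Prop :=
  ∃ (m : ℕ) (a b : ℕ → ℝ), ∀ x : ℝ,
    f x = a 0 + ∑ k ∈ Finset.Icc 1 m, (a k * Real.cos (k * x) + b k * Real.sin (k * x))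

end Pool.Agent.LibDimSpec
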