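import Pool.Agent.LibDimSpec.Main

open MeasureTheory Encodable Filter
open scoped ENNReal NNReal

namespace Pool.Agent.LibDimSpec

variable {U : List Bool →. List Bool} {code : ℚ × ℚ → List Bool}

theorem div_le_div_nat {p q K r : ℕ} (hq : 0 < q) (hr : 0 < r) :
    (p : ℝ≥0∞) / q ≤ (K : ℝ≥0∞) / r ↔ p * r ≤ K * q := by
  have hq' : (0 : ℝ≥0) < q := by exact_mod_cast hq
  have hr' : (0 : ℝ≥0) < r := by exact_mod_cast hr
  have e1 : (p : ℝ≥0∞) / q = (((p : ℝ≥0) / q : ℝ≥0) : ℝ≥0∞) := by
    rw [ENNReal.coe_div hq'.ne']; simp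
  have e2 : (K : ℝ≥0∞) / r = (((K : ℝ≥0) / r : ℝ≥0) : ℝ≥0∞) := by
    rw [ENNReal.coe_div hr'.ne']; simp
  rw [e1, e2, ENNReal.coe_le_coe, div_le_div_iff₀ hq' hr']
  exact_mod_cast Iff.rfl

theorem div_lt_div_nat {p q K r : ℕ} (hq : 0 < q) (hr : 0 < r) :
    (p : ℝ≥0∞) / q < (K : ℝ≥0∞) / r ↔ p * r < K * q := by
  rw [← not_le, ← not_le, div_le_div_nat hr hq]

/-- Upper bound for the complexity of a point on the vertical axis. -/
theorem cpxAt_axis (hU : UniversalPrefixFree U) (hcode : ComputableCoding code) (y : ℝ) :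
    ∃ c : ℕ, ∀ n, cpxAt U code (60 * n) (0, y) ≤ 61 * n + c := by
  obtain ⟨b, hb⟩ := pow_unbounded_of_one_lt |y| (by norm_num : (1 : ℝ) < 2)
  set σ : Bool := decide (y < 0) with hσ
  have hF : Partrec fun a : ℕ × ℕ =>
      (Part.some (code (vecOf ((false, 0, 0), (σ, a.2, 2 ^ (60 * a.1) - 1)))) :
        Part (List Bool)) := by
    refine Computable.partrec (hcode.computable.comp (Primrec.to_comp ?_))
    refine Primrec.pair (Primrec.const _) (Primrec.pair (Primrec.const _)
      (Primrec.pair Primrec.snd ?_))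
    exact Primrec.nat_sub.comp (primrec_two_pow (Primrec.nat_mul.comp (Primrec.const 60)
          Primrec.fst)) (Primrec.const 1)
  obtain ⟨c, hc⟩ := cpx_upper hU hF (g := fun n => 60 * n + b)
    (Primrec.nat_add.comp (Primrec.nat_mul.comp (Primrec.const 60) Primrec.id) (Primrec.const b))
  refine ⟨b + c, fun n => ?_⟩
  have hHpos : (0 : ℝ) < 2 ^ (60 * n) := by positivity
  set A : ℕ := ⌊|y| * 2 ^ (60 * n)⌋₊ with hA
  have hA1 : (A : ℝ) ≤ |y| * 2 ^ (60 * n) := Nat.floor_le (by positivity)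
  have hA2 : |y| * 2 ^ (60 * n) < A + 1 := Nat.lt_floor_add_one _
  have hlt : A < 2 ^ (60 * n + b) := by
    rw [hA, Nat.floor_lt (by positivity)]
    push_cast
    rw [pow_add, mul_comm]
    exact mul_lt_mul_of_pos_left hb hHpos
  have h1 := hc n A _ hlt (Part.mem_some _)
  have hnear : Near (60 * n) (vecOf ((false, 0, 0), (σ, A, 2 ^ (60 * n) - 1))) (0, y) := by
    have hp2 : ((2 ^ (60 * n) - 1 : ℕ) : ℚ) + 1 = 2 ^ (60 * n) := by
      rw [Nat.cast_sub Nat.one_le_two_pow]; push_cast; ring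
    refine near_of_fst_eq ?_ ?_
    · unfold vecOf ratOf
      simp
    · have hval : ((vecOf ((false, 0, 0), (σ, A, 2 ^ (60 * n) - 1))).2 : ℝ) =
          (if σ then -1 else 1) * (A / 2 ^ (60 * n)) := by
        unfold vecOf ratOf
        simp only [hp2]
        cases σ <;> (push_cast; simp <;> ring)
      rw [hval]
      have hy : y = (if σ then -1 else 1) * |y| := by
        rw [hσ]
        by_cases h : y < 0
        · simp [h, abs_of_neg h]
        · simp [h, abs_of_nonneg (not_lt.1 h)]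
      have hs1 : |(if σ then (-1 : ℝ) else 1)| = 1 := by cases σ <;> simp
      have e3 : (A : ℝ) / 2 ^ (60 * n) ≤ |y| := by rw [div_le_iff₀ hHpos]; exact hA1
      have e4 : |y| < (A + 1) / 2 ^ (60 * n) := by rw [lt_div_iff₀ hHpos]; exact hA2
      rw [add_div] at e4
      simp only
      have e5 : (if σ then (-1 : ℝ) else 1) * (A / 2 ^ (60 * n)) - y =
          (if σ then (-1 : ℝ) else 1) * (A / 2 ^ (60 * n) - |y|) := by
        rw [mul_sub, ← hy]
      rw [e5, abs_mul, hs1, one_mul, zpow_neg, zpow_natCast,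
        abs_sub_comm, abs_of_nonneg (by linarith), ← one_div]
      linarith
  have h2 := cpxAt_le (U := U) (code := code) hnear
  simp only at h1 h2
  omega

/-- Some point of a graph has large dimension. -/
theorem exists_large (hU : UniversalPrefixFree U) (hcode : ComputableCoding code) (f : ℝ → ℝ) :
    ∃ x : ℝ, ((237 : ℕ) : ℝ≥0∞) / ((240 : ℕ) : ℝ≥0∞) ≤ effDim U code (x, f x) := by
  let V : ℕ → Set ℝ := fun n => {x | cpxAt U code (120 * n) (x, f x) < 119 * n}
  have hV : ∀ n, volume (V n) ≤ ENNReal.ofReal (2 * (1 / 2) ^ n) := by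
    intro n
    refine le_trans (volume_cheap hU hcode f _ _) (ENNReal.ofReal_le_ofReal (le_of_eq ?_))
    rw [zpow_neg, zpow_natCast]
    have : (2 : ℝ) ^ (120 * n) = 2 ^ (119 * n) * 2 ^ n := by rw [← pow_add]; congr 1; ring
    rw [this, div_pow, one_pow]
    field_simp
  have hsum : ∑' n, volume (V n) ≠ ⊤ := by
    refine ne_top_of_le_ne_top ?_ (ENNReal.tsum_le_tsum hV)
    rw [← ENNReal.ofReal_tsum_of_nonneg (fun n => by positivity)
      (summable_geometric_two.mul_left 2)]
    exact ENNReal.ofReal_ne_top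
  have hlim := measure_limsup_atTop_eq_zero hsum
  have hne : ∃ x : ℝ, x ∉ limsup V atTop := by
    by_contra hcon
    push Not at hcon
    have : limsup V atTop = Set.univ := Set.eq_univ_iff_forall.2 hcon
    rw [this] at hlim
    simp at hlim
  obtain ⟨x, hx⟩ := hne
  refine ⟨x, ?_⟩
  rw [mem_limsup_iff_frequently_mem, not_frequently] at hx
  obtain ⟨N, hN⟩ := eventually_atTop.1 hx
  unfold effDim
  refine le_liminf_of_le (by isBoundedDefault) ?_
  filter_upwards [eventually_ge_atTop (120 * N + 30000)] with r hr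
  rw [div_le_div_nat (by norm_num) (by omega)]
  have h1 : ¬ (cpxAt U code (120 * (r / 120)) (x, f x) < 119 * (r / 120)) :=
    hN (r / 120) (by omega)
  have h2 : cpxAt U code (120 * (r / 120)) (x, f x) ≤ cpxAt U code r (x, f x) :=
    cpxAt_mono (by omega) _
  omega

/-- The dimension spectrum of the graph of a function of class `C ^ 2` has at least two
elements. -/
theorem spectrum_nontrivial (hU : UniversalPrefixFree U) (hcode : ComputableCoding code)
    {f : ℝ → ℝ} (hf : ContDiff ℝ 2 f) : (spectrum U code (graph f)).Nontrivial := by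
  by_contra hcon
  rw [Set.not_nontrivial_iff] at hcon
  have hall : ∀ x y : ℝ, effDim U code (x, f x) = effDim U code (y, f y) := by
    intro x y
    exact hcon ⟨(x, f x), rfl, rfl⟩ ⟨(y, f y), rfl, rfl⟩
  -- upper bound
  have hup : effDim U code (0, f 0) ≤ ((123 : ℕ) : ℝ≥0∞) / ((120 : ℕ) : ℝ≥0∞) := by
    obtain ⟨c, hc⟩ := cpxAt_axis hU hcode (f 0)
    unfold effDim
    refine liminf_le_of_frequently_le ?_ (by isBoundedDefault)
    rw [frequently_atTop]
    intro a
    refine ⟨60 * (a + 2 * c + 1), by omega, ?_⟩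
    rw [div_le_div_nat (by omega) (by norm_num)]
    have := hc (a + 2 * c + 1)
    omega
  obtain ⟨xl, hxl⟩ := exists_large hU hcode f
  refine main_contradiction hU hcode hf ?_ ?_
  · intro x
    have h1 : ((59 : ℕ) : ℝ≥0∞) / ((60 : ℕ) : ℝ≥0∞) < effDim U code (x, f x) := by
      rw [hall x xl]
      refine lt_of_lt_of_le ?_ hxl
      rw [div_lt_div_nat (by norm_num) (by norm_num)]
      norm_num
    unfold effDim at h1
    have h2 := eventually_lt_of_lt_liminf h1
    obtain ⟨N, hN⟩ := eventually_atTop.1 h2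
    filter_upwards [eventually_ge_atTop (N + 1)] with n hn
    have h3 := hN (60 * n) (by omega)
    rw [div_lt_div_nat (by norm_num) (by omega)] at h3
    omega
  · intro x
    have h1 : effDim U code (x, f x) < ((125 : ℕ) : ℝ≥0∞) / ((120 : ℕ) : ℝ≥0∞) := by
      rw [hall x 0]
      refine lt_of_le_of_lt hup ?_
      rw [div_lt_div_nat (by norm_num) (by norm_num)]
      norm_num
    unfold effDim at h1
    have h2 := frequently_lt_of_liminf_lt (by isBoundedDefault) h1
    rw [frequently_atTop] at h2 ⊢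
    intro a
    obtain ⟨r, hr, hlt⟩ := h2 (60 * (a + 126))
    refine ⟨r / 60, by omega, ?_⟩
    rw [div_lt_div_nat (by omega) (by norm_num)] at hlt
    have h3 : cpxAt U code (60 * (r / 60)) (x, f x) ≤ cpxAt U code r (x, f x) :=
      cpxAt_mono (by omega) _
    omega

end Pool.Agent.LibDimSpec
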