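import Pool.Agent.LibDimSpec.Decode

open MeasureTheory

namespace Pool.Agent.LibDimSpec

/-- The real inequality behind closeness. -/
theorem real_close {h τ a e A E M L k j : ℝ} (hh : 1 ≤ h) (h0 : 0 ≤ τ) (h1 : τ ≤ 1)
    (hA1 : A ≤ a) (hA2 : a < A + 1) (hE1 : E ≤ e) (hE2 : e < E + 1)
    (hL : |e - a| ≤ L * h) (hk : |k - ((1 - τ) * a + τ * e)| ≤ 2 + M)
    (hj : |j - τ * h| ≤ 2) :
    |h * k - (h - j) * A - j * E| ≤ (M + 2 * L + 5) * h := by
  have s1 : |k - ((1 - τ) * A + τ * E)| ≤ 3 + M := by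
    have : k - ((1 - τ) * A + τ * E) =
        (k - ((1 - τ) * a + τ * e)) + ((1 - τ) * (a - A) + τ * (e - E)) := by ring
    rw [this]
    refine le_trans (abs_add_le _ _) ?_
    have h2 : 0 ≤ (1 - τ) * (a - A) + τ * (e - E) := by
      have := mul_nonneg (by linarith : 0 ≤ 1 - τ) (by linarith : 0 ≤ a - A)
      have := mul_nonneg h0 (by linarith : 0 ≤ e - E)
      linarith
    have h3 : (1 - τ) * (a - A) + τ * (e - E) ≤ 1 := by
      have := mul_le_mul_of_nonneg_left (by linarith : a - A ≤ 1) (by linarith : 0 ≤ 1 - τ)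
      have := mul_le_mul_of_nonneg_left (by linarith : e - E ≤ 1) h0
      linarith
    rw [abs_of_nonneg h2]
    linarith
  have s2 : |h * k - (h - τ * h) * A - τ * h * E| ≤ (3 + M) * h := by
    have : h * k - (h - τ * h) * A - τ * h * E = h * (k - ((1 - τ) * A + τ * E)) := by ring
    rw [this, abs_mul, abs_of_pos (by linarith : 0 < h), mul_comm]
    exact mul_le_mul_of_nonneg_right s1 (by linarith)
  have s3 : |A - E| ≤ L * h + 1 := by
    rw [abs_le] at hL ⊢
    constructor <;> linarith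
  have s4 : |(j - τ * h) * (A - E)| ≤ 2 * (L * h + 1) := by
    rw [abs_mul]
    exact mul_le_mul hj s3 (abs_nonneg _) (by norm_num)
  have : h * k - (h - j) * A - j * E =
      (h * k - (h - τ * h) * A - τ * h * E) + (j - τ * h) * (A - E) := by ring
  rw [this]
  refine le_trans (abs_add_le _ _) ?_
  have : (1 : ℝ) ≤ h := hh
  nlinarith

theorem close_of_real {C n j k A E : ℕ} (hj : j ≤ 2 ^ (30 * n))
    (h : |(2 : ℝ) ^ (30 * n) * k - (2 ^ (30 * n) - j) * A - j * E| ≤ C * 2 ^ (30 * n)) :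
    close C n (Nat.pair j k) (Nat.pair A E) := by
  unfold close
  simp only [Nat.unpair_pair]
  rw [abs_le] at h
  constructor
  · have : ((2 ^ (30 * n) * k : ℕ) : ℝ) ≤
        (((2 ^ (30 * n) - j) * A + j * E + C * 2 ^ (30 * n) : ℕ) : ℝ) := by
      push_cast [hj]; linarith [h.2]
    exact_mod_cast this
  · have : (((2 ^ (30 * n) - j) * A + j * E : ℕ) : ℝ) ≤
        ((2 ^ (30 * n) * k + C * 2 ^ (30 * n) : ℕ) : ℝ) := by
      push_cast [hj]; linarith [h.1]
    exact_mod_cast this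

/-- Second order estimate for the chord. -/
theorem chord {f : ℝ → ℝ} (hf : Differentiable ℝ f) {a b M x0 x1 x : ℝ}
    (hM : ∀ s ∈ Set.Icc a b, ∀ t ∈ Set.Icc a b, |deriv f s - deriv f t| ≤ M * |s - t|)
    (h0 : a ≤ x0) (h1 : x1 ≤ b) (hlt : x0 < x1) (hx0 : x0 ≤ x) (hx1 : x ≤ x1) (hM0 : 0 ≤ M) :
    |f x - ((1 - (x - x0) / (x1 - x0)) * f x0 + (x - x0) / (x1 - x0) * f x1)| ≤
      M * (x1 - x0) ^ 2 := by
  have hpos : 0 < x1 - x0 := by linarith
  rcases eq_or_lt_of_le hx0 with rfl | hx0'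
  · simp; positivity
  · obtain ⟨ξ1, hξ1, e1⟩ := exists_deriv_eq_slope f hx0' hf.continuous.continuousOn
      hf.differentiableOn
    obtain ⟨ξ2, hξ2, e2⟩ := exists_deriv_eq_slope f hlt hf.continuous.continuousOn
      hf.differentiableOn
    have hx : 0 < x - x0 := by linarith
    rw [eq_div_iff hx.ne'] at e1
    rw [eq_div_iff hpos.ne'] at e2
    have key : f x - ((1 - (x - x0) / (x1 - x0)) * f x0 + (x - x0) / (x1 - x0) * f x1) =
        (x - x0) * (deriv f ξ1 - deriv f ξ2) := by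
      have : f x - ((1 - (x - x0) / (x1 - x0)) * f x0 + (x - x0) / (x1 - x0) * f x1) =
        (f x - f x0) - (x - x0) / (x1 - x0) * (f x1 - f x0) := by ring
      rw [this, ← e1, ← e2]
      field_simp
    rw [key, abs_mul, abs_of_pos hx]
    have hb := hM ξ1 ⟨by linarith [hξ1.1], by linarith [hξ1.2]⟩ ξ2
      ⟨by linarith [hξ2.1], by linarith [hξ2.2]⟩
    have hd : |ξ1 - ξ2| ≤ x1 - x0 := by
      rw [abs_le]; constructor <;> linarith [hξ1.1, hξ1.2, hξ2.1, hξ2.2]
    have hb2 : |deriv f ξ1 - deriv f ξ2| ≤ M * (x1 - x0) :=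
      le_trans hb (mul_le_mul_of_nonneg_left hd hM0)
    calc (x - x0) * |deriv f ξ1 - deriv f ξ2| ≤ (x1 - x0) * (M * (x1 - x0)) :=
          mul_le_mul (by linarith) hb2 (abs_nonneg _) hpos.le
      _ = M * (x1 - x0) ^ 2 := by ring

theorem exists_consts {f : ℝ → ℝ} (hf : ContDiff ℝ 2 f) (a b : ℝ) :
    ∃ M : ℝ, 0 ≤ M ∧
      (∀ s ∈ Set.Icc a b, ∀ t ∈ Set.Icc a b, |deriv f s - deriv f t| ≤ M * |s - t|) ∧
      (∀ s ∈ Set.Icc a b, ∀ t ∈ Set.Icc a b, |f s - f t| ≤ M * |s - t|) ∧
      (∀ s ∈ Set.Icc a b, |f s| ≤ M) := by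
  have hd1 : ContDiff ℝ 1 (deriv f) := by
    have : ContDiff ℝ (1 + 1) f := by norm_num; exact hf
    exact (contDiff_succ_iff_deriv.1 this).2.2
  have hcont1 : Continuous (deriv f) := hd1.continuous
  have hcont2 : Continuous (deriv (deriv f)) := hd1.continuous_deriv (by norm_num)
  have hdf : Differentiable ℝ f := hf.differentiable (by norm_num)
  have hddf : Differentiable ℝ (deriv f) := hd1.differentiable (by norm_num)
  obtain ⟨M0, hM0⟩ := (isCompact_Icc (a := a) (b := b)).exists_bound_of_continuousOn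
    hf.continuous.continuousOn
  obtain ⟨M1, hM1⟩ := (isCompact_Icc (a := a) (b := b)).exists_bound_of_continuousOn
    hcont1.continuousOn
  obtain ⟨M2, hM2⟩ := (isCompact_Icc (a := a) (b := b)).exists_bound_of_continuousOn
    hcont2.continuousOn
  refine ⟨|M0| + |M1| + |M2|, by positivity, ?_, ?_, ?_⟩
  · intro s hs t ht
    have := (convex_Icc a b).norm_image_sub_le_of_norm_deriv_le
      (f := deriv f) (C := |M2|) (fun x _ => hddf x)
      (fun x hx => le_trans (hM2 x hx) (le_abs_self _)) ht hs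
    rw [Real.norm_eq_abs, Real.norm_eq_abs] at this
    refine le_trans this (mul_le_mul_of_nonneg_right ?_ (abs_nonneg _))
    have := abs_nonneg M0
    have := abs_nonneg M1
    linarith
  · intro s hs t ht
    have := (convex_Icc a b).norm_image_sub_le_of_norm_deriv_le
      (f := f) (C := |M1|) (fun x _ => hdf x)
      (fun x hx => le_trans (hM1 x hx) (le_abs_self _)) ht hs
    rw [Real.norm_eq_abs, Real.norm_eq_abs] at this
    refine le_trans this (mul_le_mul_of_nonneg_right ?_ (abs_nonneg _))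
    have := abs_nonneg M0
    have := abs_nonneg M2
    linarith
  · intro s hs
    have := hM0 s hs
    rw [Real.norm_eq_abs] at this
    have := le_abs_self M0
    have := abs_nonneg M1
    have := abs_nonneg M2
    linarith

end Pool.Agent.LibDimSpec
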