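import Pool.Agent.LibDimSpec.Geo

open MeasureTheory Encodable

namespace Pool.Agent.LibDimSpec

variable {U : List Bool →. List Bool} {code : ℚ × ℚ → List Bool}

theorem two_pow_sixty (n : ℕ) : (2 : ℝ) ^ (60 * n) = 2 ^ (30 * n) * 2 ^ (30 * n) := by
  rw [← pow_add]; congr 1; ring

/-- A cheap point of the graph over a strip yields a hit of the line through the end
points of the strip. -/
theorem local_hit (hU : UniversalPrefixFree U) {c : Nat.Partrec.Code}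
    (hc : ∀ p q, code q ∈ U p → ∃ t : Pres, vecOf t = q ∧ encode t ∈ c.eval (encode p))
    {f : ℝ → ℝ} (hf : Differentiable ℝ f) {M s u v : ℝ} {C b n i j' : ℕ} (hM0 : 0 ≤ M)
    (hM1 : ∀ x ∈ Set.Icc (0 : ℝ) 3, ∀ t ∈ Set.Icc (0 : ℝ) 3,
      |deriv f x - deriv f t| ≤ M * |x - t|)
    (hM2 : ∀ x ∈ Set.Icc (0 : ℝ) 3, ∀ t ∈ Set.Icc (0 : ℝ) 3, |f x - f t| ≤ M * |x - t|)
    (hM3 : ∀ x ∈ Set.Icc (0 : ℝ) 3, |f x| ≤ M)
    (hs : ∀ x ∈ Set.Icc u v, |f x| = s * f x) (hs1 : |s| = 1) (hu : 1 ≤ u) (hv : v ≤ 2)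
    (hC : 3 * M + 5 ≤ C) (hb : M + 1 < 2 ^ b)
    (hi0 : u ≤ (i : ℝ) / 2 ^ (30 * n)) (hi1 : ((i : ℝ) + 1) / 2 ^ (30 * n) ≤ v)
    {x : ℝ} (hcheap : cpxAt U code (60 * n) (x, f x) < 63 * n)
    (hj1 : 1 ≤ j') (hj2 : j' + 2 ≤ 2 ^ (30 * n))
    (hx0 : (i : ℝ) * 2 ^ (30 * n) + j' ≤ x * 2 ^ (60 * n))
    (hx1 : x * 2 ^ (60 * n) < (i : ℝ) * 2 ^ (30 * n) + j' + 1) :
    ∃ j ∈ hitsF C n (full c b n i)
      (Nat.pair ⌊|f ((i : ℝ) / 2 ^ (30 * n))| * 2 ^ (60 * n)⌋₊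
        ⌊|f (((i : ℝ) + 1) / 2 ^ (30 * n))| * 2 ^ (60 * n)⌋₊), j ≤ j' + 1 ∧ j' ≤ j + 1 := by
  obtain ⟨q, hq, hq'⟩ := exists_cpxAt U code (60 * n) (x, f x)
  rw [← hq'] at hcheap
  have hH : (2 : ℝ) ^ (-((60 * n : ℕ) : ℤ)) * 2 ^ (60 * n) = 1 := by
    rw [zpow_neg, zpow_natCast, inv_mul_cancel₀ (by positivity)]
  have hHpos : (0 : ℝ) < 2 ^ (60 * n) := by positivity
  have hq1 : |(q.1 : ℝ) * 2 ^ (60 * n) - x * 2 ^ (60 * n)| < 1 := by
    rw [← sub_mul, abs_mul, abs_of_pos hHpos, ← hH]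
    exact mul_lt_mul_of_pos_right hq.fst hHpos
  have hq2 : |(q.2 : ℝ) - f x| * 2 ^ (60 * n) < 1 := by
    rw [← hH]
    exact mul_lt_mul_of_pos_right hq.snd hHpos
  rw [abs_lt] at hq1
  set h : ℝ := 2 ^ (30 * n) with hh
  have hH2 : (2 : ℝ) ^ (60 * n) = h * h := two_pow_sixty n
  have hh1 : 1 ≤ h := one_le_pow₀ (by norm_num)
  have hhN : ((2 ^ (30 * n) : ℕ) : ℝ) = h := by push_cast; rfl
  have hhpos : 0 < h := by linarith
  have hj2' : (j' : ℝ) + 2 ≤ h := by rw [← hhN]; exact_mod_cast hj2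
  have hj1' : (1 : ℝ) ≤ j' := by exact_mod_cast hj1
  -- bounds for x
  set x0 : ℝ := (i : ℝ) / h with hx0def
  set x1 : ℝ := ((i : ℝ) + 1) / h with hx1def
  have hi_x0 : (i : ℝ) = x0 * h := by rw [hx0def, div_mul_cancel₀ _ hhpos.ne']
  have hi_x1 : (i : ℝ) + 1 = x1 * h := by rw [hx1def, div_mul_cancel₀ _ hhpos.ne']
  have hx1x0 : x1 - x0 = 1 / h := by rw [hx0def, hx1def, ← sub_div]; ring_nf
  have hxx0 : x0 ≤ x := by
    have : x0 * (h * h) ≤ x * (h * h) := by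
      rw [hH2] at hx0; nlinarith
    exact le_of_mul_le_mul_right this (by positivity)
  have hxx1 : x ≤ x1 := by
    have : x * (h * h) ≤ x1 * (h * h) := by
      rw [hH2] at hx1; nlinarith
    exact le_of_mul_le_mul_right this (by positivity)
  have hx1le : 1 ≤ x := by linarith
  -- floor of q1
  have hq1pos : (0 : ℝ) < q.1 := by
    have h3 : 0 < (q.1 : ℝ) * 2 ^ (60 * n) := by
      have : (1 : ℝ) ≤ 2 ^ (60 * n) := one_le_pow₀ (by norm_num)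
      nlinarith
    exact (mul_pos_iff_of_pos_right hHpos).1 h3
  have hq1posQ : 0 < q.1 := by exact_mod_cast hq1pos
  set J : ℕ := ⌊q.1 * 2 ^ (60 * n)⌋₊ with hJ
  have hJ1 : (J : ℝ) ≤ (q.1 : ℝ) * 2 ^ (60 * n) := by
    have : (J : ℚ) ≤ q.1 * 2 ^ (60 * n) := Nat.floor_le (by positivity)
    exact_mod_cast this
  have hJ2 : (q.1 : ℝ) * 2 ^ (60 * n) < J + 1 := by
    have : q.1 * 2 ^ (60 * n) < (J : ℚ) + 1 := Nat.lt_floor_add_one _
    exact_mod_cast this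
  set k : ℕ := ⌊|q.2| * 2 ^ (60 * n)⌋₊ with hk
  have hk1 : (k : ℝ) ≤ |(q.2 : ℝ)| * 2 ^ (60 * n) := by
    have : (k : ℚ) ≤ |q.2| * 2 ^ (60 * n) := Nat.floor_le (by positivity)
    exact_mod_cast this
  have hk2 : |(q.2 : ℝ)| * 2 ^ (60 * n) < k + 1 := by
    have : |q.2| * 2 ^ (60 * n) < (k : ℚ) + 1 := Nat.lt_floor_add_one _
    exact_mod_cast this
  -- position of J
  have hJlow : i * 2 ^ (30 * n) + j' ≤ J + 1 := by
    have : ((i * 2 ^ (30 * n) + j' : ℕ) : ℝ) < ((J + 2 : ℕ) : ℝ) := by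
      push_cast; rw [← hh]; linarith
    have := Nat.cast_lt.1 this
    omega
  have hJup : J ≤ i * 2 ^ (30 * n) + j' + 1 := by
    have : (J : ℝ) < ((i * 2 ^ (30 * n) + j' + 2 : ℕ) : ℝ) := by
      push_cast; rw [← hh]; linarith
    have := Nat.cast_lt.1 this
    omega
  obtain ⟨j, hj⟩ : ∃ j, J = i * 2 ^ (30 * n) + j := ⟨J - i * 2 ^ (30 * n), by omega⟩
  have hjlt : j < 2 ^ (30 * n) := by omega
  have hdiv : J / 2 ^ (30 * n) = i := by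
    rw [hj, mul_comm, Nat.mul_add_div (by positivity), Nat.div_eq_of_lt hjlt, add_zero]
  have hmod : J % 2 ^ (30 * n) = j := by
    rw [hj, mul_comm, Nat.mul_add_mod, Nat.mod_eq_of_lt hjlt]
  have hjR : (J : ℝ) = (i : ℝ) * h + j := by rw [hj]; push_cast; rfl
  -- value of |f x|
  have hx03 : x ∈ Set.Icc (0 : ℝ) 3 := ⟨by linarith, by linarith⟩
  have hfx := hM3 x hx03
  have habs : |(|(q.2 : ℝ)| - |f x|)| * 2 ^ (60 * n) < 1 :=
    lt_of_le_of_lt (mul_le_mul_of_nonneg_right (abs_abs_sub_abs_le_abs_sub _ _) hHpos.le) hq2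
  have habs2 : |(|(q.2 : ℝ)| * 2 ^ (60 * n) - |f x| * 2 ^ (60 * n))| < 1 := by
    rw [← sub_mul, abs_mul, abs_of_pos hHpos]; exact habs
  rw [abs_lt] at habs2
  have hkfx : |(k : ℝ) - |f x| * 2 ^ (60 * n)| ≤ 2 := by
    rw [abs_le]; constructor <;> linarith
  have hkb : k < 2 ^ (60 * n + b) := by
    have h1 : (k : ℝ) < ((2 ^ (60 * n + b) : ℕ) : ℝ) := by
      push_cast
      rw [pow_add]
      have e1 : (1 : ℝ) ≤ 2 ^ (60 * n) := one_le_pow₀ (by norm_num)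
      have e2 : |f x| * 2 ^ (60 * n) ≤ M * 2 ^ (60 * n) :=
        mul_le_mul_of_nonneg_right hfx hHpos.le
      have e3 : (M + 1) * 2 ^ (60 * n) < 2 ^ b * 2 ^ (60 * n) :=
        mul_lt_mul_of_pos_right hb hHpos
      have e4 : (M + 1) * 2 ^ (60 * n) = M * 2 ^ (60 * n) + 2 ^ (60 * n) := by ring
      have e5 : (2 : ℝ) ^ (60 * n) * 2 ^ b = 2 ^ b * 2 ^ (60 * n) := mul_comm _ _
      rw [e5]
      linarith
    exact_mod_cast h1
  have hfull := mem_full_of_cheap (c := c) hU hc (b := b) (i := i) hcheap hq1posQ hdiv hkb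
  rw [← hJ, hmod] at hfull
  refine ⟨j, ?_, by omega, by omega⟩
  rw [mem_hitsF]
  refine ⟨hjlt, _, hfull, by simp, ?_⟩
  refine close_of_real hjlt.le ?_
  -- the real estimate
  set A : ℕ := ⌊|f x0| * 2 ^ (60 * n)⌋₊ with hA
  set E : ℕ := ⌊|f x1| * 2 ^ (60 * n)⌋₊ with hE
  have hA1 : (A : ℝ) ≤ |f x0| * 2 ^ (60 * n) := Nat.floor_le (by positivity)
  have hA2 : |f x0| * 2 ^ (60 * n) < A + 1 := Nat.lt_floor_add_one _
  have hE1 : (E : ℝ) ≤ |f x1| * 2 ^ (60 * n) := Nat.floor_le (by positivity)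
  have hE2 : |f x1| * 2 ^ (60 * n) < E + 1 := Nat.lt_floor_add_one _
  have hx0m : x0 ∈ Set.Icc (0 : ℝ) 3 := ⟨by linarith, by linarith⟩
  have hx1m : x1 ∈ Set.Icc (0 : ℝ) 3 := ⟨by linarith, by linarith⟩
  have hL : |(|f x1| * 2 ^ (60 * n) - |f x0| * 2 ^ (60 * n))| ≤ M * h := by
    rw [← sub_mul, abs_mul, abs_of_pos hHpos]
    have e1 : |(|f x1| - |f x0|)| ≤ M * (1 / h) := by
      refine le_trans (abs_abs_sub_abs_le_abs_sub _ _) (le_trans (hM2 x1 hx1m x0 hx0m) ?_)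
      rw [hx1x0, abs_of_pos (by positivity)]
    calc |(|f x1| - |f x0|)| * 2 ^ (60 * n) ≤ M * (1 / h) * 2 ^ (60 * n) :=
          mul_le_mul_of_nonneg_right e1 hHpos.le
      _ = M * h := by rw [hH2]; field_simp
  set τ : ℝ := (x - x0) / (x1 - x0) with hτ
  have hτ2 : τ * h = (x - x0) * (h * h) := by
    rw [hτ, hx1x0]; field_simp
  have hτ0 : 0 ≤ τ := div_nonneg (by linarith) (by rw [hx1x0]; positivity)
  have hτ1 : τ ≤ 1 := by
    rw [hτ, div_le_one (by rw [hx1x0]; positivity)]; linarith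
  have hch := chord hf hM1 (by linarith : (0 : ℝ) ≤ x0) (by linarith : x1 ≤ 3)
    (by have : 0 < 1 / h := by positivity
        linarith) hxx0 hxx1 hM0
  rw [← hτ] at hch
  have hch2 : |(|f x| - ((1 - τ) * |f x0| + τ * |f x1|))| ≤ M * (1 / h) ^ 2 := by
    rw [hs x ⟨by linarith, by linarith⟩, hs x0 ⟨hi0, by linarith⟩, hs x1 ⟨by linarith, hi1⟩]
    have : s * f x - ((1 - τ) * (s * f x0) + τ * (s * f x1)) =
        s * (f x - ((1 - τ) * f x0 + τ * f x1)) := by ring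
    rw [this, abs_mul, hs1, one_mul, ← hx1x0]
    exact hch
  have hch3 : |(|f x| * 2 ^ (60 * n) - ((1 - τ) * (|f x0| * 2 ^ (60 * n)) +
      τ * (|f x1| * 2 ^ (60 * n))))| ≤ M := by
    have : |f x| * 2 ^ (60 * n) - ((1 - τ) * (|f x0| * 2 ^ (60 * n)) +
      τ * (|f x1| * 2 ^ (60 * n))) =
      (|f x| - ((1 - τ) * |f x0| + τ * |f x1|)) * 2 ^ (60 * n) := by ring
    rw [this, abs_mul, abs_of_pos hHpos]
    calc _ ≤ M * (1 / h) ^ 2 * 2 ^ (60 * n) := mul_le_mul_of_nonneg_right hch2 hHpos.le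
      _ = M := by rw [hH2]; field_simp
  have hkk : |(k : ℝ) - ((1 - τ) * (|f x0| * 2 ^ (60 * n)) +
      τ * (|f x1| * 2 ^ (60 * n)))| ≤ 2 + M := by
    have : (k : ℝ) - ((1 - τ) * (|f x0| * 2 ^ (60 * n)) + τ * (|f x1| * 2 ^ (60 * n))) =
      ((k : ℝ) - |f x| * 2 ^ (60 * n)) + (|f x| * 2 ^ (60 * n) -
        ((1 - τ) * (|f x0| * 2 ^ (60 * n)) + τ * (|f x1| * 2 ^ (60 * n)))) := by ring
    rw [this]
    refine le_trans (abs_add_le _ _) ?_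
    linarith
  have hjj : |(j : ℝ) - τ * h| ≤ 2 := by
    have : (j : ℝ) - τ * h = J - x * 2 ^ (60 * n) := by
      rw [hτ2, hjR, hH2, hi_x0]; ring
    rw [this, abs_le]
    constructor <;> linarith
  have hfin := real_close hh1 hτ0 hτ1 hA1 hA2 hE1 hE2 hL hkk hjj
  refine le_trans hfin ?_
  refine mul_le_mul_of_nonneg_right ?_ hhpos.le
  linarith

end Pool.Agent.LibDimSpec
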