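import Pool.Agent.LibDimSpec.Upper

open Encodable

namespace Pool.Agent.LibDimSpec

/-- Presentations of rational vectors. -/
abbrev Pres := (Bool × ℕ × ℕ) × (Bool × ℕ × ℕ)

/-- The cell (relative horizontal index, vertical index) of a presented vector lying over
the strip `i`. -/
def cell (n i : ℕ) (t : Pres) : Option ℕ :=
  if t.1.1 = false ∧ t.1.2.1 * 2 ^ (60 * n) / (t.1.2.2 + 1) / 2 ^ (30 * n) = i then
    some (Nat.pair (t.1.2.1 * 2 ^ (60 * n) / (t.1.2.2 + 1) % 2 ^ (30 * n))
      (t.2.2.1 * 2 ^ (60 * n) / (t.2.2.2 + 1)))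
  else none

theorem primrec_cell : Primrec fun a : (ℕ × ℕ) × Pres => cell a.1.1 a.1.2 a.2 := by
  have hn : Primrec fun a : (ℕ × ℕ) × Pres => a.1.1 := Primrec.fst.comp Primrec.fst
  have hi : Primrec fun a : (ℕ × ℕ) × Pres => a.1.2 := Primrec.snd.comp Primrec.fst
  have h60 : Primrec fun a : (ℕ × ℕ) × Pres => 2 ^ (60 * a.1.1) :=
    primrec_two_pow (Primrec.nat_mul.comp (Primrec.const 60) hn)
  have h30 : Primrec fun a : (ℕ × ℕ) × Pres => 2 ^ (30 * a.1.1) :=
    primrec_two_pow (Primrec.nat_mul.comp (Primrec.const 30) hn)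
  have ht1 : Primrec fun a : (ℕ × ℕ) × Pres => a.2.1 := Primrec.fst.comp Primrec.snd
  have ht2 : Primrec fun a : (ℕ × ℕ) × Pres => a.2.2 := Primrec.snd.comp Primrec.snd
  have hJ : Primrec fun a : (ℕ × ℕ) × Pres =>
      a.2.1.2.1 * 2 ^ (60 * a.1.1) / (a.2.1.2.2 + 1) :=
    Primrec.nat_div.comp
      (Primrec.nat_mul.comp (Primrec.fst.comp (Primrec.snd.comp ht1)) h60)
      (Primrec.nat_add.comp (Primrec.snd.comp (Primrec.snd.comp ht1)) (Primrec.const 1))
  have hk : Primrec fun a : (ℕ × ℕ) × Pres =>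
      a.2.2.2.1 * 2 ^ (60 * a.1.1) / (a.2.2.2.2 + 1) :=
    Primrec.nat_div.comp
      (Primrec.nat_mul.comp (Primrec.fst.comp (Primrec.snd.comp ht2)) h60)
      (Primrec.nat_add.comp (Primrec.snd.comp (Primrec.snd.comp ht2)) (Primrec.const 1))
  unfold cell
  refine Primrec.ite ?_ ?_ (Primrec.const none)
  · refine PrimrecPred.and ?_ ?_
    · exact Primrec.eq.comp (Primrec.fst.comp ht1) (Primrec.const false)
    · exact Primrec.eq.comp (Primrec.nat_div.comp hJ h30) hi
  · exact Primrec.option_some.comp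
      (Primrec₂.natPair.comp (Primrec.nat_mod.comp hJ h30) hk)

/-- The cell described by a coded presentation. -/
def cellOf (n i y : ℕ) : Option ℕ := (decode (α := Pres) y).bind fun t => cell n i t

theorem primrec_cellOf : Primrec fun a : (ℕ × ℕ) × ℕ => cellOf a.1.1 a.1.2 a.2 := by
  unfold cellOf
  refine Primrec.option_bind (f := fun a : (ℕ × ℕ) × ℕ => decode (α := Pres) a.2)
    (g := fun (a : (ℕ × ℕ) × ℕ) (t : Pres) => cell a.1.1 a.1.2 t)
    (Primrec.decode.comp Primrec.snd) ?_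
  exact primrec_cell.comp (g := fun a : ((ℕ × ℕ) × ℕ) × Pres => (a.1.1, a.2))
    (Primrec.pair (Primrec.fst.comp Primrec.fst) Primrec.snd)

/-- Result of running the program number `x` for `m` steps, if its output
lies over the strip `i`. -/
def run (c : Nat.Partrec.Code) (n i m x : ℕ) : Option ℕ :=
  (Nat.Partrec.Code.evaln m c x).bind fun y => cellOf n i y

theorem primrec_run (c : Nat.Partrec.Code) :
    Primrec fun a : (ℕ × ℕ × ℕ) × ℕ => run c a.1.1 a.1.2.1 a.1.2.2 a.2 := by
  unfold run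
  refine Primrec.option_bind
    (f := fun a : (ℕ × ℕ × ℕ) × ℕ => Nat.Partrec.Code.evaln a.1.2.2 c a.2)
    (g := fun (a : (ℕ × ℕ × ℕ) × ℕ) (y : ℕ) => cellOf a.1.1 a.1.2.1 y) ?_ ?_
  · exact Nat.Partrec.Code.primrec_evaln.comp
      (g := fun a : (ℕ × ℕ × ℕ) × ℕ => ((a.1.2.2, c), a.2))
      (Primrec.pair (Primrec.pair (Primrec.snd.comp (Primrec.snd.comp Primrec.fst))
        (Primrec.const c)) Primrec.snd)
  · exact primrec_cellOf.comp
      (g := fun a : ((ℕ × ℕ × ℕ) × ℕ) × ℕ => ((a.1.1.1, a.1.1.2.1), a.2))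
      (Primrec.pair (Primrec.pair (Primrec.fst.comp (Primrec.fst.comp Primrec.fst))
        (Primrec.fst.comp (Primrec.snd.comp (Primrec.fst.comp Primrec.fst)))) Primrec.snd)

/-- Result of running the program number `x` for `m` steps, if it is short and its output
lies over the strip `i`. -/
def test (c : Nat.Partrec.Code) (n i m x : ℕ) : Option ℕ :=
  (decode (α := List Bool) x).bind fun p =>
    if p.length < 63 * n then run c n i m (encode p) else none

theorem primrec_test (c : Nat.Partrec.Code) :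
    Primrec fun a : (ℕ × ℕ × ℕ) × ℕ => test c a.1.1 a.1.2.1 a.1.2.2 a.2 := by
  unfold test
  refine Primrec.option_bind
    (f := fun a : (ℕ × ℕ × ℕ) × ℕ => decode (α := List Bool) a.2)
    (g := fun (a : (ℕ × ℕ × ℕ) × ℕ) (p : List Bool) =>
      if p.length < 63 * a.1.1 then run c a.1.1 a.1.2.1 a.1.2.2 (encode p) else none)
    (Primrec.decode.comp Primrec.snd) ?_
  have h1 : PrimrecPred fun b : ((ℕ × ℕ × ℕ) × ℕ) × List Bool =>
      b.2.length < 63 * b.1.1.1 :=
    Primrec.nat_lt.comp (Primrec.list_length.comp Primrec.snd)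
      (Primrec.nat_mul.comp (Primrec.const 63) (Primrec.fst.comp (Primrec.fst.comp Primrec.fst)))
  have h2 : Primrec fun b : ((ℕ × ℕ × ℕ) × ℕ) × List Bool =>
      run c b.1.1.1 b.1.1.2.1 b.1.1.2.2 (encode b.2) :=
    (primrec_run c).comp (g := fun b : ((ℕ × ℕ × ℕ) × ℕ) × List Bool => (b.1.1, encode b.2))
      (Primrec.pair (Primrec.fst.comp Primrec.fst) (Primrec.encode.comp Primrec.snd))
  exact Primrec.ite h1 h2 (Primrec.const none)

/-- Bound for the codes of cells and lines. -/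
def bound (b n : ℕ) : ℕ := 2 ^ (2 * (60 * n + b))

/-- The cells over the strip `i` found within `m` steps. -/
def cells (c : Nat.Partrec.Code) (b n i m : ℕ) : List ℕ :=
  (List.range (bound b n)).filter fun z => decide (∃ x ∈ List.range m, test c n i m x = some z)

theorem primrec_cells (c : Nat.Partrec.Code) (b : ℕ) :
    Primrec fun a : ℕ × ℕ × ℕ => cells c b a.1 a.2.1 a.2.2 := by
  have hR1 : PrimrecRel fun (x : ℕ) (y : (ℕ × ℕ × ℕ) × ℕ) =>
      test c y.1.1 y.1.2.1 y.1.2.2 x = some y.2 := by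
    refine Primrec.eq.comp ?_ ?_
    · exact (primrec_test c).comp (Primrec.pair (Primrec.fst.comp Primrec.snd) Primrec.fst)
    · exact Primrec.option_some.comp (Primrec.snd.comp Primrec.snd)
  have hR2 := hR1.exists_mem_list
  have hR3 : PrimrecRel fun (z : ℕ) (y : ℕ × ℕ × ℕ) =>
      ∃ x ∈ List.range y.2.2, test c y.1 y.2.1 y.2.2 x = some z := by
    refine hR2.comp (f := fun p : ℕ × (ℕ × ℕ × ℕ) => List.range p.2.2.2)
      (g := fun p : ℕ × (ℕ × ℕ × ℕ) => (p.2, p.1)) ?_ ?_
    · exact Primrec.list_range.comp (Primrec.snd.comp (Primrec.snd.comp Primrec.snd))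
    · exact Primrec.pair Primrec.snd Primrec.fst
  have hR4 := hR3.listFilter
  have hb : Primrec fun a : ℕ × ℕ × ℕ => List.range (bound b a.1) := by
    refine Primrec.list_range.comp (primrec_two_pow ?_)
    exact Primrec.nat_mul.comp (Primrec.const 2)
      (Primrec.nat_add.comp (Primrec.nat_mul.comp (Primrec.const 60) Primrec.fst)
        (Primrec.const b))
  exact hR4.comp hb Primrec.id

/-- The cell `z` is close to the line through the points of height `A`, `E` over the
end points of the strip, where `y` codes the pair `A`, `E`. -/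
def close (C n z y : ℕ) : Prop :=
  2 ^ (30 * n) * z.unpair.2 ≤ (2 ^ (30 * n) - z.unpair.1) * y.unpair.1
      + z.unpair.1 * y.unpair.2 + C * 2 ^ (30 * n) ∧
  (2 ^ (30 * n) - z.unpair.1) * y.unpair.1 + z.unpair.1 * y.unpair.2
      ≤ 2 ^ (30 * n) * z.unpair.2 + C * 2 ^ (30 * n)

instance (C n z y : ℕ) : Decidable (close C n z y) := by
  unfold close; infer_instance

/-- The horizontal indices at which some cell of the list is close to the line. -/
def hits (C n : ℕ) (l : List ℕ) (y : ℕ) : List ℕ :=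
  (List.range (2 ^ (30 * n))).filter fun j => decide (∃ z ∈ l, z.unpair.1 = j ∧ close C n z y)

/-- The lines close to many cells of the list. -/
def richList (C b n : ℕ) (l : List ℕ) : List ℕ :=
  (List.range (bound b n)).filter fun y => decide (2 ^ (29 * n - 4) ≤ (hits C n l y).length)

theorem primrec_unpair1 : Primrec fun n : ℕ => n.unpair.1 := Primrec.fst.comp Primrec.unpair
theorem primrec_unpair2 : Primrec fun n : ℕ => n.unpair.2 := Primrec.snd.comp Primrec.unpair

theorem primrec_close (C : ℕ) :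
    PrimrecPred fun a : ℕ × ℕ × ℕ => close C a.1 a.2.1 a.2.2 := by
  have h30 : Primrec fun a : ℕ × ℕ × ℕ => 2 ^ (30 * a.1) :=
    primrec_two_pow (Primrec.nat_mul.comp (Primrec.const 30) Primrec.fst)
  have hj : Primrec fun a : ℕ × ℕ × ℕ => a.2.1.unpair.1 :=
    primrec_unpair1.comp (Primrec.fst.comp Primrec.snd)
  have hk : Primrec fun a : ℕ × ℕ × ℕ => a.2.1.unpair.2 :=
    primrec_unpair2.comp (Primrec.fst.comp Primrec.snd)
  have hA : Primrec fun a : ℕ × ℕ × ℕ => a.2.2.unpair.1 :=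
    primrec_unpair1.comp (Primrec.snd.comp Primrec.snd)
  have hE : Primrec fun a : ℕ × ℕ × ℕ => a.2.2.unpair.2 :=
    primrec_unpair2.comp (Primrec.snd.comp Primrec.snd)
  have hl : Primrec fun a : ℕ × ℕ × ℕ => (2 ^ (30 * a.1) - a.2.1.unpair.1) * a.2.2.unpair.1
      + a.2.1.unpair.1 * a.2.2.unpair.2 :=
    Primrec.nat_add.comp (Primrec.nat_mul.comp (Primrec.nat_sub.comp h30 hj) hA)
      (Primrec.nat_mul.comp hj hE)
  have hr : Primrec fun a : ℕ × ℕ × ℕ => 2 ^ (30 * a.1) * a.2.1.unpair.2 :=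
    Primrec.nat_mul.comp h30 hk
  have hC : Primrec fun a : ℕ × ℕ × ℕ => C * 2 ^ (30 * a.1) :=
    Primrec.nat_mul.comp (Primrec.const C) h30
  unfold close
  refine PrimrecPred.and ?_ ?_
  · exact Primrec.nat_le.comp hr (Primrec.nat_add.comp hl hC)
  · exact Primrec.nat_le.comp hl (Primrec.nat_add.comp hr hC)

theorem primrec_hits (C : ℕ) :
    Primrec fun a : ℕ × List ℕ × ℕ => hits C a.1 a.2.1 a.2.2 := by
  have hR1 : PrimrecRel fun (z : ℕ) (y : (ℕ × ℕ) × ℕ) =>
      z.unpair.1 = y.2 ∧ close C y.1.1 z y.1.2 := by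
    refine PrimrecPred.and ?_ ?_
    · exact Primrec.eq.comp (primrec_unpair1.comp Primrec.fst) (Primrec.snd.comp Primrec.snd)
    · exact (primrec_close C).comp (Primrec.pair
        (Primrec.fst.comp (Primrec.fst.comp Primrec.snd))
        (Primrec.pair Primrec.fst (Primrec.snd.comp (Primrec.fst.comp Primrec.snd))))
  have hR2 := hR1.exists_mem_list
  have hR3 : PrimrecRel fun (j : ℕ) (y : ℕ × List ℕ × ℕ) =>
      ∃ z ∈ y.2.1, z.unpair.1 = j ∧ close C y.1 z y.2.2 := by
    refine hR2.comp (f := fun p : ℕ × (ℕ × List ℕ × ℕ) => p.2.2.1)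
      (g := fun p : ℕ × (ℕ × List ℕ × ℕ) => ((p.2.1, p.2.2.2), p.1)) ?_ ?_
    · exact Primrec.fst.comp (Primrec.snd.comp Primrec.snd)
    · exact Primrec.pair (Primrec.pair (Primrec.fst.comp Primrec.snd)
        (Primrec.snd.comp (Primrec.snd.comp Primrec.snd))) Primrec.fst
  have hR4 := hR3.listFilter
  have hb : Primrec fun a : ℕ × List ℕ × ℕ => List.range (2 ^ (30 * a.1)) :=
    Primrec.list_range.comp (primrec_two_pow (Primrec.nat_mul.comp (Primrec.const 30) Primrec.fst))
  exact hR4.comp hb Primrec.id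

theorem primrec_richList (C b : ℕ) :
    Primrec fun a : ℕ × List ℕ => richList C b a.1 a.2 := by
  have hR : PrimrecRel fun (y : ℕ) (a : ℕ × List ℕ) =>
      2 ^ (29 * a.1 - 4) ≤ (hits C a.1 a.2 y).length := by
    refine Primrec.nat_le.comp ?_ ?_
    · refine primrec_two_pow (Primrec.nat_sub.comp (Primrec.nat_mul.comp (Primrec.const 29)
        (Primrec.fst.comp Primrec.snd)) (Primrec.const 4))
    · refine Primrec.list_length.comp ((primrec_hits C).comp (Primrec.pair
        (Primrec.fst.comp Primrec.snd) (Primrec.pair (Primrec.snd.comp Primrec.snd) Primrec.fst)))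
  have hR4 := hR.listFilter
  have hb : Primrec fun a : ℕ × List ℕ => List.range (bound b a.1) := by
    refine Primrec.list_range.comp (primrec_two_pow ?_)
    exact Primrec.nat_mul.comp (Primrec.const 2)
      (Primrec.nat_add.comp (Primrec.nat_mul.comp (Primrec.const 60) Primrec.fst)
        (Primrec.const b))
  exact hR4.comp hb Primrec.id

/-- The output: the rational point over the left end point of the strip `i`. -/
def outPres (σ : Bool) (n i y : ℕ) : Pres :=
  ((false, i, 2 ^ (30 * n) - 1), (σ, y.unpair.1, 2 ^ (60 * n) - 1))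

/-- The machine. -/
def machine (code : ℚ × ℚ → List Bool) (c : Nat.Partrec.Code) (σ : Bool) (C b : ℕ) :
    ℕ × ℕ →. List Bool := fun a =>
  (Nat.rfind fun m => Part.some (decide
    (a.2 / 2 ^ (30 * a.1 + 1) % 2 ^ (6 * a.1 + 5) * 2 ^ (29 * a.1 - 4) ≤
      (cells c b a.1 (a.2 % 2 ^ (30 * a.1 + 1)) m).length))).bind fun m =>
  ((((richList C b a.1 (cells c b a.1 (a.2 % 2 ^ (30 * a.1 + 1)) m))[
      a.2 / 2 ^ (30 * a.1 + 1) / 2 ^ (6 * a.1 + 5)]?).map fun y =>
    code (vecOf (outPres σ a.1 (a.2 % 2 ^ (30 * a.1 + 1)) y)) : Option (List Bool)) :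
    Part (List Bool))

theorem partrec_machine {code : ℚ × ℚ → List Bool} (hc : ComputableCoding code)
    (c : Nat.Partrec.Code) (σ : Bool) (C b : ℕ) : Partrec (machine code c σ C b) := by
  unfold machine
  have hp1 : Primrec fun a : ℕ × ℕ => 2 ^ (30 * a.1 + 1) :=
    primrec_two_pow (Primrec.nat_add.comp (Primrec.nat_mul.comp (Primrec.const 30) Primrec.fst)
      (Primrec.const 1))
  have hp2 : Primrec fun a : ℕ × ℕ => 2 ^ (6 * a.1 + 5) :=
    primrec_two_pow (Primrec.nat_add.comp (Primrec.nat_mul.comp (Primrec.const 6) Primrec.fst)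
      (Primrec.const 5))
  have hi : Primrec fun a : ℕ × ℕ => a.2 % 2 ^ (30 * a.1 + 1) :=
    Primrec.nat_mod.comp Primrec.snd hp1
  have hN1 : Primrec fun a : ℕ × ℕ => a.2 / 2 ^ (30 * a.1 + 1) :=
    Primrec.nat_div.comp Primrec.snd hp1
  have hcc : Primrec fun a : ℕ × ℕ => a.2 / 2 ^ (30 * a.1 + 1) % 2 ^ (6 * a.1 + 5) :=
    Primrec.nat_mod.comp hN1 hp2
  have ht : Primrec fun a : ℕ × ℕ => a.2 / 2 ^ (30 * a.1 + 1) / 2 ^ (6 * a.1 + 5) :=
    Primrec.nat_div.comp hN1 hp2
  have hcells : Primrec fun p : (ℕ × ℕ) × ℕ =>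
      cells c b p.1.1 (p.1.2 % 2 ^ (30 * p.1.1 + 1)) p.2 :=
    (primrec_cells c b).comp (Primrec.pair (Primrec.fst.comp Primrec.fst)
      (Primrec.pair (hi.comp Primrec.fst) Primrec.snd))
  refine Partrec.bind (Partrec.rfind ?_) ?_
  · refine Computable.partrec (Primrec.to_comp ?_)
    refine (PrimrecPred.decide (p := fun p : (ℕ × ℕ) × ℕ =>
      p.1.2 / 2 ^ (30 * p.1.1 + 1) % 2 ^ (6 * p.1.1 + 5) * 2 ^ (29 * p.1.1 - 4) ≤
      (cells c b p.1.1 (p.1.2 % 2 ^ (30 * p.1.1 + 1)) p.2).length) ?_)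
    refine Primrec.nat_le.comp (Primrec.nat_mul.comp (hcc.comp Primrec.fst) ?_)
      (Primrec.list_length.comp hcells)
    exact primrec_two_pow (Primrec.nat_sub.comp (Primrec.nat_mul.comp (Primrec.const 29)
        (Primrec.fst.comp Primrec.fst)) (Primrec.const 4))
  · refine Computable.ofOption (Computable.option_map (Primrec.to_comp ?_) ?_)
    · refine Primrec.list_getElem?.comp ((primrec_richList C b).comp (Primrec.pair
        (Primrec.fst.comp Primrec.fst) hcells)) (ht.comp Primrec.fst)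
    · refine hc.computable.comp (Primrec.to_comp ?_)
      unfold outPres
      refine Primrec.pair (Primrec.pair (Primrec.const false) (Primrec.pair ?_ ?_))
        (Primrec.pair (Primrec.const σ) (Primrec.pair ?_ ?_))
      · exact hi.comp (Primrec.fst.comp Primrec.fst)
      · exact Primrec.nat_sub.comp (primrec_two_pow (Primrec.nat_mul.comp (Primrec.const 30)
          (Primrec.fst.comp (Primrec.fst.comp Primrec.fst)))) (Primrec.const 1)
      · exact primrec_unpair1.comp Primrec.snd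
      · exact Primrec.nat_sub.comp (primrec_two_pow (Primrec.nat_mul.comp (Primrec.const 60)
          (Primrec.fst.comp (Primrec.fst.comp Primrec.fst)))) (Primrec.const 1)

end Pool.Agent.LibDimSpec
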