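import Pool.Agent.LibDimSpec.Select

open MeasureTheory Encodable Filter
open scoped ENNReal

namespace Pool.Agent.LibDimSpec

variable {U : List Bool →. List Bool} {code : ℚ × ℚ → List Bool}

/-- Many cheap points over a short interval force a cheap point whose abscissa is a
dyadic rational. -/
theorem strip_contradiction (hU : UniversalPrefixFree U) (hcode : ComputableCoding code)
    {f : ℝ → ℝ} (hf : ContDiff ℝ 2 f) {s : ℝ} {σ : Bool} (hσ : s = if σ then -1 else 1)
    {u' u v v' : ℝ} (h1 : 1 ≤ u') (h2 : u' < u) (h3 : v < v') (h4 : v' ≤ 2)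
    (hs : ∀ x ∈ Set.Icc u' v', |f x| = s * f x)
    (hlow : ∀ᶠ n : ℕ in atTop, ∀ x ∈ Set.Icc u' v', 59 * n ≤ cpxAt U code (60 * n) (x, f x)) :
    ∀ᶠ n : ℕ in atTop,
      volume {x ∈ Set.Ioo u v | cpxAt U code (60 * n) (x, f x) < 63 * n} <
        ENNReal.ofReal (1 / 2 ^ n) := by
  obtain ⟨M, hM0, hM1, hM2, hM3⟩ := exists_consts hf 0 3
  obtain ⟨c, hc⟩ := exists_decoder hU hcode
  obtain ⟨C, hC⟩ := exists_nat_ge (3 * M + 5)
  obtain ⟨b, hb⟩ := pow_unbounded_of_one_lt (M + 1) (by norm_num : (1 : ℝ) < 2)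
  obtain ⟨K, n0, hK⟩ := cheap_of_rich hU hcode c σ C b
  have hs1 : |s| = 1 := by rw [hσ]; cases σ <;> simp
  -- smallness of the mesh
  have hmesh : ∀ᶠ n : ℕ in atTop, 2 / (2 : ℝ) ^ (30 * n) < min (u - u') (v' - v) := by
    have hpos : 0 < min (u - u') (v' - v) := lt_min (by linarith) (by linarith)
    have ht : Tendsto (fun n : ℕ => 2 * (1 / (2 : ℝ) ^ 30) ^ n) atTop (nhds (2 * 0)) :=
      (tendsto_pow_atTop_nhds_zero_of_lt_one (by positivity) (by norm_num)).const_mul 2
    rw [mul_zero] at ht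
    filter_upwards [ht.eventually_lt_const hpos] with n hn
    refine lt_of_eq_of_lt ?_ hn
    rw [pow_mul, div_pow, one_pow]
    ring
  filter_upwards [hlow, hmesh, eventually_ge_atTop (n0 + 1), eventually_ge_atTop (K + 1)]
    with n hlown hmeshn hn hnK
  set V := {x ∈ Set.Ioo u v | cpxAt U code (60 * n) (x, f x) < 63 * n} with hV
  by_contra hcon
  push Not at hcon
  set h : ℝ := 2 ^ (30 * n) with hh
  have hhpos : 0 < h := by positivity
  have hhN : ((2 ^ (30 * n) : ℕ) : ℝ) = h := by push_cast; rfl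
  have hH : (2 : ℝ) ^ (60 * n) = h * h := two_pow_sixty n
  have hVsub : V ⊆ Set.Ico 1 2 := by
    rintro x ⟨⟨hx1, hx2⟩, -⟩
    exact ⟨by linarith, by linarith⟩
  have hvol := le_trans hcon (volume_le_good hVsub n)
  have hsum : 2 ^ (59 * n) ≤
      ∑ i ∈ Finset.Ico (2 ^ (30 * n)) (2 * 2 ^ (30 * n)), (good V n i).card := by
    generalize ∑ i ∈ Finset.Ico (2 ^ (30 * n)) (2 * 2 ^ (30 * n)), (good V n i).card = S at hvol
    rw [← ENNReal.ofReal_natCast, ← ENNReal.ofReal_mul (Nat.cast_nonneg S),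
      ENNReal.ofReal_le_ofReal_iff (mul_nonneg (Nat.cast_nonneg S) (by positivity))] at hvol
    have e1 : (2 : ℝ) ^ (59 * n) ≤ S := by
      have e2 : (1 : ℝ) / 2 ^ n * 2 ^ (60 * n) ≤ (S : ℝ) * (1 / 2 ^ (60 * n)) * 2 ^ (60 * n) :=
        mul_le_mul_of_nonneg_right hvol (by positivity)
      have e3 : (1 : ℝ) / 2 ^ n * 2 ^ (60 * n) = 2 ^ (59 * n) := by
        have : (2 : ℝ) ^ (60 * n) = 2 ^ (59 * n) * 2 ^ n := by rw [← pow_add]; congr 1; ring
        rw [this]; field_simp
      have e4 : (S : ℝ) * (1 / 2 ^ (60 * n)) * 2 ^ (60 * n) = S := by field_simp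
      rw [e3, e4] at e2
      exact e2
    exact_mod_cast e1
  obtain ⟨i, hiI, hgood, hlight⟩ := exists_strip c b (by omega) hsum
  rw [Finset.mem_Ico] at hiI
  -- the strip is inside
  have hgne : (good V n i).Nonempty := by
    rw [← Finset.card_pos]
    exact lt_of_lt_of_le (by positivity) hgood
  obtain ⟨j0, hj0⟩ := hgne
  obtain ⟨hj0lt, y0, ⟨⟨hy0u, hy0v⟩, -⟩, hy1, hy2⟩ := mem_good.1 hj0
  have hj0' : (j0 : ℝ) + 1 ≤ h := by rw [← hhN]; exact_mod_cast hj0lt
  have hiy1 : (i : ℝ) ≤ y0 * h := by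
    have : (i : ℝ) * h ≤ (y0 * h) * h := by
      rw [hH] at hy1
      have : (0 : ℝ) ≤ j0 := by positivity
      nlinarith
    exact le_of_mul_le_mul_right this hhpos
  have hiy2 : y0 * h ≤ i + 1 := by
    have : (y0 * h) * h ≤ (i + 1) * h := by
      rw [hH] at hy2
      nlinarith
    exact le_of_mul_le_mul_right this hhpos
  rw [lt_min_iff] at hmeshn
  have hm1 : 2 < (u - u') * h := by
    rw [← div_lt_iff₀ hhpos]; exact hmeshn.1
  have hm2 : 2 < (v' - v) * h := by
    rw [← div_lt_iff₀ hhpos]; exact hmeshn.2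
  have hi0 : u' ≤ (i : ℝ) / h := by
    rw [le_div_iff₀ hhpos]
    nlinarith
  have hi1 : ((i : ℝ) + 1) / h ≤ v' := by
    rw [div_le_iff₀ hhpos]
    nlinarith
  -- the line
  set x0 : ℝ := (i : ℝ) / h with hx0
  set x1 : ℝ := ((i : ℝ) + 1) / h with hx1
  set A : ℕ := ⌊|f x0| * 2 ^ (60 * n)⌋₊ with hA
  set E : ℕ := ⌊|f x1| * 2 ^ (60 * n)⌋₊ with hE
  have hx01 : x0 ≤ x1 := by
    rw [hx0, hx1]; gcongr; linarith
  have hx0m : x0 ∈ Set.Icc u' v' := ⟨hi0, by linarith⟩
  have hx1m : x1 ∈ Set.Icc u' v' := ⟨by linarith, hi1⟩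
  have hHpos : (0 : ℝ) < 2 ^ (60 * n) := by positivity
  have hfl : ∀ x ∈ Set.Icc u' v', ⌊|f x| * 2 ^ (60 * n)⌋₊ < 2 ^ (60 * n + b) := by
    intro x hx
    rw [Nat.floor_lt (by positivity)]
    push_cast
    rw [pow_add, mul_comm]
    refine mul_lt_mul_of_pos_left ?_ hHpos
    have := hM3 x ⟨by linarith [hx.1], by linarith [hx.2]⟩
    linarith
  have hybound : Nat.pair A E < bound b n := by
    refine lt_of_lt_of_le (Nat.pair_lt_max_add_one_sq _ _) ?_
    unfold bound
    rw [mul_comm 2 (60 * n + b), pow_mul 2 (60 * n + b) 2]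
    refine Nat.pow_le_pow_left ?_ 2
    rw [Nat.succ_le_iff]
    exact max_lt (hfl x0 hx0m) (hfl x1 hx1m)
  -- hits
  have hhits : ∀ j' ∈ good V n i, 1 ≤ j' → j' + 2 ≤ 2 ^ (30 * n) →
      ∃ j ∈ hitsF C n (full c b n i) (Nat.pair A E), j ≤ j' + 1 ∧ j' ≤ j + 1 := by
    intro j' hj' hj1 hj2
    obtain ⟨-, x, ⟨-, hcheap⟩, hxa, hxb⟩ := mem_good.1 hj'
    exact local_hit hU hc (hf.differentiable (by norm_num)) hM0 hM1 hM2 hM3 hs hs1 h1 h4 hC hb
      hi0 hi1 hcheap hj1 hj2 hxa hxb
  have hcount : (good V n i).card ≤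
      3 * (hitsF C n (full c b n i) (Nat.pair A E)).card + 2 := by
    classical
    set T := hitsF C n (full c b n i) (Nat.pair A E) with hT
    have hsub : good V n i ⊆ ((T ∪ T.image (· + 1)) ∪ T.image (· - 1)) ∪
        {0, 2 ^ (30 * n) - 1} := by
      intro j' hj'
      have hlt := (mem_good.1 hj').1
      by_cases hb1 : 1 ≤ j' ∧ j' + 2 ≤ 2 ^ (30 * n)
      · obtain ⟨j, hj, hja, hjb⟩ := hhits j' hj' hb1.1 hb1.2
        apply Finset.mem_union_left
        have : j = j' ∨ j + 1 = j' ∨ j - 1 = j' := by omega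
        rcases this with rfl | rfl | rfl
        · exact Finset.mem_union_left _ (Finset.mem_union_left _ hj)
        · exact Finset.mem_union_left _ (Finset.mem_union_right _
            (Finset.mem_image.2 ⟨j, hj, rfl⟩))
        · exact Finset.mem_union_right _ (Finset.mem_image.2 ⟨j, hj, rfl⟩)
      · apply Finset.mem_union_right
        rw [Finset.mem_insert, Finset.mem_singleton]
        omega
    refine le_trans (Finset.card_le_card hsub) (le_trans (Finset.card_union_le _ _) ?_)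
    have e1 : (T ∪ T.image (· + 1) ∪ T.image (· - 1)).card ≤ 3 * T.card := by
      refine le_trans (Finset.card_union_le _ _) ?_
      have := Finset.card_union_le T (T.image (· + 1))
      have := Finset.card_image_le (s := T) (f := (· + 1))
      have := Finset.card_image_le (s := T) (f := (· - 1))
      omega
    have e2 : ({0, 2 ^ (30 * n) - 1} : Finset ℕ).card ≤ 2 := Finset.card_le_two
    omega
  have hrich : 2 ^ (29 * n - 3) ≤ (hitsF C n (full c b n i) (Nat.pair A E)).card := by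
    have e1 : 2 ^ (29 * n - 1) = 4 * 2 ^ (29 * n - 3) := by
      have : 29 * n - 1 = (29 * n - 3) + 2 := by omega
      rw [this, pow_add]; ring
    have e2 : 2 ≤ 2 ^ (29 * n - 3) := by
      calc 2 = 2 ^ 1 := rfl
        _ ≤ _ := Nat.pow_le_pow_right (by norm_num) (by omega)
    omega
  have hilt : i < 2 ^ (30 * n + 1) := by rw [pow_succ]; omega
  have hcheap := hK n (by omega) i (Nat.pair A E) hilt hlight hybound hrich
  -- the approximation
  have hnear : Near (60 * n) (vecOf (outPres σ n i (Nat.pair A E))) (x0, f x0) := by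
    have hp1 : ((2 ^ (30 * n) - 1 : ℕ) : ℚ) + 1 = 2 ^ (30 * n) := by
      rw [Nat.cast_sub Nat.one_le_two_pow]; push_cast; ring
    have hp2 : ((2 ^ (60 * n) - 1 : ℕ) : ℚ) + 1 = 2 ^ (60 * n) := by
      rw [Nat.cast_sub Nat.one_le_two_pow]; push_cast; ring
    refine near_of_fst_eq ?_ ?_
    · unfold vecOf outPres ratOf
      simp only [hp1]
      push_cast
      rw [← hh]
      simp [hx0]
    · have hval : ((vecOf (outPres σ n i (Nat.pair A E))).2 : ℝ) = s * (A / 2 ^ (60 * n)) := by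
        unfold vecOf outPres ratOf
        simp only [hp2, Nat.unpair_pair]
        rw [hσ]
        cases σ <;> (push_cast; simp <;> ring)
      rw [hval]
      have hfs : f x0 = s * |f x0| := by
        have e1 := hs x0 hx0m
        rw [e1]
        have e2 : s * (s * f x0) = (s * s) * f x0 := by ring
        rw [e2, hσ]
        cases σ <;> simp
      simp only
      rw [hfs, ← mul_sub, abs_mul, hs1, one_mul, zpow_neg, zpow_natCast]
      have hA1 : (A : ℝ) ≤ |f x0| * 2 ^ (60 * n) := Nat.floor_le (by positivity)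
      have hA2 : |f x0| * 2 ^ (60 * n) < A + 1 := Nat.lt_floor_add_one _
      have e3 : (A : ℝ) / 2 ^ (60 * n) ≤ |f x0| := by rw [div_le_iff₀ hHpos]; exact hA1
      have e4 : |f x0| < (A + 1) / 2 ^ (60 * n) := by rw [lt_div_iff₀ hHpos]; exact hA2
      rw [add_div] at e4
      rw [abs_sub_comm, abs_of_nonneg (by linarith), ← one_div]
      linarith
  have h5 := cpxAt_le (U := U) (code := code) hnear
  have h6 := hlown x0 hx0m
  omega

/-- For a function of class `C ^ 2` it is impossible that all points of the graph have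
both few cheap and many cheap precisions. -/
theorem main_contradiction (hU : UniversalPrefixFree U) (hcode : ComputableCoding code)
    {f : ℝ → ℝ} (hf : ContDiff ℝ 2 f)
    (hP1 : ∀ x, ∀ᶠ n : ℕ in atTop, 59 * n ≤ cpxAt U code (60 * n) (x, f x))
    (hP2 : ∀ x, ∃ᶠ n : ℕ in atTop, cpxAt U code (60 * n) (x, f x) < 63 * n) : False := by
  -- Baire category
  let F : ℕ → Set ℝ := fun R => {x | ∀ n, R ≤ n → 59 * n ≤ cpxAt U code (60 * n) (x, f x)}
  have hFclosed : ∀ R, IsClosed (F R) := by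
    intro R
    have : F R = ⋂ n, ⋂ (_ : R ≤ n), {x | cpxAt U code (60 * n) (x, f x) < 59 * n}ᶜ := by
      ext x
      simp only [F, Set.mem_iInter, Set.mem_compl_iff]
      constructor
      · intro hx n hn hlt
        exact absurd hlt (not_lt.2 (hx n hn))
      · intro hx n hn
        exact not_lt.1 (hx n hn)
    rw [this]
    exact isClosed_iInter fun n => isClosed_iInter fun _ =>
      (isOpen_cheap hf.continuous _ _).isClosed_compl
  have hFuniv : ⋃ R, F R = Set.univ := by
    rw [Set.eq_univ_iff_forall]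
    intro x
    obtain ⟨R, hR⟩ := eventually_atTop.1 (hP1 x)
    exact Set.mem_iUnion.2 ⟨R, fun n hn => hR n hn⟩
  have hdense := dense_iUnion_interior_of_closed hFclosed hFuniv
  obtain ⟨x, hx12, hxF⟩ := hdense.inter_open_nonempty (Set.Ioo 1 2) isOpen_Ioo
    ⟨3 / 2, by norm_num, by norm_num⟩
  obtain ⟨R, hxR⟩ := Set.mem_iUnion.1 hxF
  -- an open set on which the lower bound is uniform
  set W : Set ℝ := interior (F R) ∩ Set.Ioo 1 2 with hW
  have hWopen : IsOpen W := isOpen_interior.inter isOpen_Ioo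
  have hxW : x ∈ W := ⟨hxR, hx12⟩
  -- a subset on which the sign is constant
  have hsign : ∃ (σ : Bool) (W' : Set ℝ), IsOpen W' ∧ W'.Nonempty ∧ W' ⊆ W ∧
      ∀ y ∈ W', |f y| = (if σ then -1 else 1) * f y := by
    by_cases hneg : ∃ y ∈ W, f y < 0
    · obtain ⟨y, hyW, hy⟩ := hneg
      refine ⟨true, W ∩ f ⁻¹' Set.Iio 0, hWopen.inter (isOpen_Iio.preimage hf.continuous),
        ⟨y, hyW, hy⟩, Set.inter_subset_left, ?_⟩
      rintro z ⟨-, hz⟩
      have : f z < 0 := hz
      simp [abs_of_neg this]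
    · push Not at hneg
      refine ⟨false, W, hWopen, ⟨x, hxW⟩, subset_rfl, fun y hy => ?_⟩
      simp [abs_of_nonneg (hneg y hy)]
  obtain ⟨σ, W', hW'open, ⟨y, hyW'⟩, hW'W, hσ⟩ := hsign
  obtain ⟨ε, hε, hball⟩ := Metric.isOpen_iff.1 hW'open y hyW'
  -- the intervals
  have hsub : Set.Icc (y - ε / 2) (y + ε / 2) ⊆ W' := by
    intro z hz
    apply hball
    rw [Metric.mem_ball, Real.dist_eq, abs_lt]
    constructor <;> linarith [hz.1, hz.2]
  have hyl := (hW'W (hsub ⟨le_refl _, by linarith⟩)).2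
  have hyr := (hW'W (hsub ⟨by linarith, le_refl (y + ε / 2)⟩)).2
  have hsc := strip_contradiction hU hcode hf (s := if σ then -1 else 1) (σ := σ) rfl
    (u' := y - ε / 2) (u := y - ε / 4) (v := y + ε / 4) (v' := y + ε / 2)
    hyl.1.le (by linarith) (by linarith) hyr.2.le (fun z hz => hσ z (hsub hz))
    (by
      filter_upwards [eventually_ge_atTop R] with n hn z hz
      exact interior_subset (hW'W (hsub hz)).1 n hn)
  -- Borel-Cantelli
  let V : ℕ → Set ℝ := fun n =>
    {x ∈ Set.Ioo (y - ε / 4) (y + ε / 4) | cpxAt U code (60 * n) (x, f x) < 63 * n}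
  obtain ⟨N, hN⟩ := eventually_atTop.1 hsc
  have hsummable : ∑' n, volume (V (n + N)) ≠ ⊤ := by
    refine ne_top_of_le_ne_top ?_ (ENNReal.tsum_le_tsum
      (fun n => le_trans (hN (n + N) (by omega)).le
        (ENNReal.ofReal_le_ofReal (q := (1 / 2) ^ n) ?_)))
    · rw [← ENNReal.ofReal_tsum_of_nonneg (fun n => by positivity) summable_geometric_two]
      exact ENNReal.ofReal_ne_top
    · rw [div_pow, one_pow]
      apply one_div_le_one_div_of_le (by positivity)
      exact pow_le_pow_right₀ (by norm_num) (by omega)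
  have hlim := measure_limsup_atTop_eq_zero hsummable
  have hsubset : Set.Ioo (y - ε / 4) (y + ε / 4) ⊆ limsup (fun n => V (n + N)) atTop := by
    intro z hz
    rw [mem_limsup_iff_frequently_mem]
    have h1 := hP2 z
    rw [frequently_atTop] at h1 ⊢
    intro a
    obtain ⟨m, hm, hmc⟩ := h1 (a + N)
    refine ⟨m - N, by omega, ?_⟩
    rw [Nat.sub_add_cancel (by omega)]
    exact ⟨hz, hmc⟩
  have h0 := measure_mono_null hsubset hlim
  rw [Real.volume_Ioo, ENNReal.ofReal_eq_zero] at h0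
  linarith

end Pool.Agent.LibDimSpec
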