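import Pool.Agent.LibDimSpec.Count

open Encodable

namespace Pool.Agent.LibDimSpec

variable {U : List Bool →. List Bool} {code : ℚ × ℚ → List Bool}

theorem nodup_richList (C b n : ℕ) (l : List ℕ) : (richList C b n l).Nodup :=
  List.nodup_range.filter _

theorem mem_richList {C b n : ℕ} {l : List ℕ} {y : ℕ} :
    y ∈ richList C b n l ↔ y < bound b n ∧ 2 ^ (29 * n - 4) ≤ (hits C n l y).length := by
  unfold richList
  rw [List.mem_filter, List.mem_range, decide_eq_true_iff]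

theorem exists_two_pow_gt (K : ℕ) : ∃ n0 : ℕ, ∀ n, n0 ≤ n → K < 2 ^ n :=
  ⟨K, fun n hn => lt_of_lt_of_le (Nat.lt_two_pow_self) (Nat.pow_le_pow_right (by norm_num) hn)⟩

theorem length_richList (C b : ℕ) : ∃ n0 : ℕ, ∀ n, n0 ≤ n → ∀ l : List ℕ,
    l.toFinset.card ≤ 2 ^ (35 * n) → (richList C b n l).length < 2 ^ (15 * n) := by
  obtain ⟨n0, hn0⟩ := exists_two_pow_gt (2 ^ 9 * (2 * (1028 * C + 1) ^ 2))
  refine ⟨n0 + 1, fun n hn l hl => ?_⟩
  have h1 : 29 * n ≥ 6 := by omega
  have hq : 2 ^ (30 * n) ≤ 2 ^ (n + 6) * 2 ^ (29 * n - 6) := by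
    rw [← pow_add]; exact Nat.pow_le_pow_right (by norm_num) (by omega)
  have hcount := rich_count (C := C) (n := n) (B := 2 ^ (35 * n)) (N := 2 ^ (29 * n - 4))
    (D := 2 ^ (29 * n - 6)) (q := 2 ^ (n + 6)) (l := l) hl (richList C b n l).toFinset
    (fun y hy => (mem_richList.1 (List.mem_toFinset.1 hy)).2) hq Nat.one_le_two_pow
  rw [List.toFinset_card_of_nodup (nodup_richList C b n l)] at hcount
  by_contra hcon
  push Not at hcon
  have e1 : 2 ^ (29 * n - 5) ≤ 2 ^ (29 * n - 4) - (2 * 2 ^ (29 * n - 6) - 1) := by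
    have e2 : 29 * n - 4 = (29 * n - 6) + 2 := by omega
    have e3 : 29 * n - 5 = (29 * n - 6) + 1 := by omega
    rw [e2, e3, pow_add, pow_add]
    have := Nat.one_le_two_pow (n := 29 * n - 6)
    omega
  have e4 : 2 * (2 * (2 * C + 8 * C * 2 ^ (n + 6)) + 1) ^ 2 ≤
      2 * (1028 * C + 1) ^ 2 * 2 ^ (2 * n) := by
    have e5 : 2 * (2 * C + 8 * C * 2 ^ (n + 6)) + 1 ≤ (1028 * C + 1) * 2 ^ n := by
      have := Nat.one_le_two_pow (n := n)
      rw [pow_add]
      nlinarith
    calc 2 * (2 * (2 * C + 8 * C * 2 ^ (n + 6)) + 1) ^ 2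
        ≤ 2 * ((1028 * C + 1) * 2 ^ n) ^ 2 := by gcongr
      _ = 2 * (1028 * C + 1) ^ 2 * 2 ^ (2 * n) := by ring
  have e6 : 2 ^ (15 * n) * (2 ^ (29 * n - 4) * 2 ^ (29 * n - 5)) ≤
      (2 ^ (35 * n)) ^ 2 * (2 * (1028 * C + 1) ^ 2 * 2 ^ (2 * n)) := by
    calc 2 ^ (15 * n) * (2 ^ (29 * n - 4) * 2 ^ (29 * n - 5))
        ≤ (richList C b n l).length * (2 ^ (29 * n - 4) *
            (2 ^ (29 * n - 4) - (2 * 2 ^ (29 * n - 6) - 1))) := by gcongr
      _ ≤ _ := hcount
      _ ≤ _ := Nat.mul_le_mul_left _ e4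
  have e7 : 2 ^ (15 * n) * (2 ^ (29 * n - 4) * 2 ^ (29 * n - 5)) * 2 ^ 9 = 2 ^ (73 * n) := by
    rw [← pow_add, ← pow_add, ← pow_add]
    congr 1; omega
  have e8 : 2 ^ (73 * n) ≤ 2 ^ (72 * n) * (2 ^ 9 * (2 * (1028 * C + 1) ^ 2)) := by
    rw [← e7]
    calc _ ≤ (2 ^ (35 * n)) ^ 2 * (2 * (1028 * C + 1) ^ 2 * 2 ^ (2 * n)) * 2 ^ 9 :=
          Nat.mul_le_mul_right _ e6
      _ = ((2 ^ (35 * n)) ^ 2 * 2 ^ (2 * n)) * (2 ^ 9 * (2 * (1028 * C + 1) ^ 2)) := by
          generalize (2 ^ (35 * n)) ^ 2 = u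
          generalize 2 ^ (2 * n) = v
          ring
      _ = 2 ^ (72 * n) * (2 ^ 9 * (2 * (1028 * C + 1) ^ 2)) := by
          rw [← pow_mul, ← pow_add]
          congr 2; ring
  have e9 : 2 ^ (73 * n) = 2 ^ (72 * n) * 2 ^ n := by
    rw [← pow_add]; congr 1; ring
  rw [e9] at e8
  have e10 := Nat.le_of_mul_le_mul_left e8 (by positivity)
  have := hn0 n (by omega)
  omega

open Classical in
/-- All cells over the strip `i`. -/
noncomputable def full (c : Nat.Partrec.Code) (b n i : ℕ) : Finset ℕ :=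
  (Finset.range (bound b n)).filter fun z => ∃ m x, test c n i m x = some z

theorem mem_full {c : Nat.Partrec.Code} {b n i z : ℕ} :
    z ∈ full c b n i ↔ z < bound b n ∧ ∃ m x, test c n i m x = some z := by
  classical
  unfold full
  rw [Finset.mem_filter, Finset.mem_range]

theorem test_eq_some {c : Nat.Partrec.Code} {n i m x z : ℕ} (h : test c n i m x = some z) :
    ∃ p : List Bool, decode x = some p ∧ p.length < 63 * n ∧
      run c n i m (encode p) = some z := by
  unfold test at h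
  rw [Option.bind_eq_some_iff] at h
  obtain ⟨p, hp, h⟩ := h
  split_ifs at h with h1
  exact ⟨p, hp, h1, h⟩

theorem run_eq_some {c : Nat.Partrec.Code} {n i m x z : ℕ} (h : run c n i m x = some z) :
    ∃ y, y ∈ Nat.Partrec.Code.evaln m c x ∧ cellOf n i y = some z := by
  unfold run at h
  rw [Option.bind_eq_some_iff] at h
  obtain ⟨y, hy, h⟩ := h
  exact ⟨y, hy, h⟩

theorem test_mono {c : Nat.Partrec.Code} {n i m m' x z : ℕ} (hm : m ≤ m')
    (h : test c n i m x = some z) : test c n i m' x = some z := by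
  obtain ⟨p, hp, hl, hr⟩ := test_eq_some h
  obtain ⟨y, hy, hc⟩ := run_eq_some hr
  unfold test run
  rw [hp]
  have hy' := Nat.Partrec.Code.evaln_mono hm hy
  rw [Option.mem_def] at hy'
  simp [hl, hy', hc]

theorem mem_cells {c : Nat.Partrec.Code} {b n i m z : ℕ} :
    z ∈ cells c b n i m ↔ z < bound b n ∧ ∃ x < m, test c n i m x = some z := by
  unfold cells
  rw [List.mem_filter, List.mem_range, decide_eq_true_iff]
  simp [List.mem_range]

theorem nodup_cells (c : Nat.Partrec.Code) (b n i m : ℕ) : (cells c b n i m).Nodup :=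
  List.nodup_range.filter _

theorem cells_subset (c : Nat.Partrec.Code) (b n i m : ℕ) :
    (cells c b n i m).toFinset ⊆ full c b n i := by
  intro z hz
  rw [List.mem_toFinset, mem_cells] at hz
  obtain ⟨h1, x, -, h2⟩ := hz
  exact mem_full.2 ⟨h1, m, x, h2⟩

theorem exists_cells_eq (c : Nat.Partrec.Code) (b n i : ℕ) :
    ∃ m, full c b n i ⊆ (cells c b n i m).toFinset := by
  classical
  have h : ∀ z ∈ full c b n i, ∃ m, ∀ m' ≥ m, z ∈ (cells c b n i m').toFinset := by
    intro z hz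
    obtain ⟨h1, m, x, h2⟩ := mem_full.1 hz
    refine ⟨max m (x + 1), fun m' hm' => ?_⟩
    rw [List.mem_toFinset, mem_cells]
    exact ⟨h1, x, by omega, test_mono (by omega) h2⟩
  choose! M hM using h
  refine ⟨(full c b n i).sup M, fun z hz => hM z hz _ (Finset.le_sup hz)⟩

theorem cellOf_eq_some {n i y z : ℕ} (h : cellOf n i y = some z) :
    ∃ t : Pres, decode y = some t ∧ cell n i t = some z := by
  unfold cellOf at h
  rw [Option.bind_eq_some_iff] at h
  exact h

theorem cell_eq_some {n i z : ℕ} {t : Pres} (h : cell n i t = some z) :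
    t.1.2.1 * 2 ^ (60 * n) / (t.1.2.2 + 1) / 2 ^ (30 * n) = i := by
  unfold cell at h
  split_ifs at h with h1
  exact h1.2

theorem sum_card_full (c : Nat.Partrec.Code) (b n : ℕ) (I : Finset ℕ) :
    ∑ i ∈ I, (full c b n i).card ≤ 2 ^ (63 * n) := by
  classical
  rw [← Finset.card_sigma]
  refine le_trans ?_ (card_progs (63 * n))
  refine Finset.card_le_card_of_forall_subsingleton
    (fun (a : Σ _ : ℕ, ℕ) (p : List Bool) => ∃ m, run c n a.1 m (encode p) = some a.2) ?_ ?_
  · rintro ⟨i, z⟩ ha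
    rw [Finset.mem_sigma] at ha
    obtain ⟨-, m, x, h2⟩ := mem_full.1 ha.2
    obtain ⟨p, -, hl, hr⟩ := test_eq_some h2
    exact ⟨p, mem_progs.2 hl, m, hr⟩
  · rintro p - ⟨i, z⟩ ⟨-, m, h⟩ ⟨i', z'⟩ ⟨-, m', h'⟩
    simp only at h h'
    obtain ⟨y, hy, hc⟩ := run_eq_some h
    obtain ⟨y', hy', hc'⟩ := run_eq_some h'
    have e1 := Nat.Partrec.Code.evaln_sound hy
    have e2 := Nat.Partrec.Code.evaln_sound hy'
    have e3 := Part.mem_unique e1 e2
    subst e3
    obtain ⟨t, ht, hc⟩ := cellOf_eq_some hc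
    obtain ⟨t', ht', hc'⟩ := cellOf_eq_some hc'
    rw [ht] at ht'
    obtain rfl := Option.some.inj ht'
    have e4 := cell_eq_some hc
    have e5 := cell_eq_some hc'
    rw [e4] at e5
    subst e5
    rw [hc] at hc'
    obtain rfl := Option.some.inj hc'
    rfl

open Classical in
/-- Horizontal indices at which some cell of a finite set is close to a line. -/
noncomputable def hitsF (C n : ℕ) (P : Finset ℕ) (y : ℕ) : Finset ℕ :=
  (Finset.range (2 ^ (30 * n))).filter fun j => ∃ z ∈ P, z.unpair.1 = j ∧ close C n z y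

theorem mem_hitsF {C n : ℕ} {P : Finset ℕ} {y j : ℕ} :
    j ∈ hitsF C n P y ↔ j < 2 ^ (30 * n) ∧ ∃ z ∈ P, z.unpair.1 = j ∧ close C n z y := by
  classical
  unfold hitsF
  rw [Finset.mem_filter, Finset.mem_range]

/-- The end point of a strip is cheap if the strip carries a rich line. -/
theorem cheap_of_rich (hU : UniversalPrefixFree U) (hcode : ComputableCoding code)
    (c : Nat.Partrec.Code) (σ : Bool) (C b : ℕ) : ∃ K n0 : ℕ, ∀ n, n0 ≤ n → ∀ i y : ℕ,
    i < 2 ^ (30 * n + 1) → (full c b n i).card ≤ 2 ^ (35 * n) → y < bound b n →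
    2 ^ (29 * n - 3) ≤ (hitsF C n (full c b n i) y).card →
    cpx U (code (vecOf (outPres σ n i y))) ≤ 52 * n + K := by
  classical
  obtain ⟨K, hK⟩ := cpx_upper hU (partrec_machine hcode c σ C b)
    (g := fun n => 51 * n + 6)
    (Primrec.nat_add.comp (Primrec.nat_mul.comp (Primrec.const 51) Primrec.id) (Primrec.const 6))
  obtain ⟨n0, hn0⟩ := length_richList C b
  refine ⟨K + 6, n0 + 1, fun n hn i y hi hlight hy hrich => ?_⟩
  set w := 29 * n - 4 with hw
  set F := full c b n i with hF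
  set cc := F.card / 2 ^ w with hcc
  have hcc1 : cc * 2 ^ w ≤ F.card := Nat.div_mul_le_self _ _
  have hcc2 : F.card < (cc + 1) * 2 ^ w := by
    have h1 := Nat.div_add_mod F.card (2 ^ w)
    have h2 := Nat.mod_lt F.card (show 0 < 2 ^ w by positivity)
    rw [← hcc] at h1
    nlinarith
  have hccB : cc < 2 ^ (6 * n + 5) := by
    rw [hcc, Nat.div_lt_iff_lt_mul (by positivity), ← pow_add]
    exact lt_of_le_of_lt hlight (Nat.pow_lt_pow_right (by norm_num) (by omega))
  -- the stage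
  obtain ⟨mf, hmf⟩ := exists_cells_eq c b n i
  have hdom : (Nat.rfind fun m => Part.some
      (decide (cc * 2 ^ w ≤ (cells c b n i m).length))).Dom := by
    refine Nat.rfind_dom.2 ⟨mf, ?_, fun _ => trivial⟩
    simp only [Part.mem_some_iff]
    symm
    rw [decide_eq_true_iff, ← List.toFinset_card_of_nodup (nodup_cells c b n i mf)]
    exact le_trans hcc1 (Finset.card_le_card hmf)
  obtain ⟨m0, hm0⟩ := Part.dom_iff_mem.1 hdom
  have hm0' := Nat.rfind_spec hm0
  simp only [Part.mem_some_iff] at hm0'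
  have hm0'' := of_decide_eq_true hm0'.symm
  set l := cells c b n i m0 with hl
  have hlF : l.toFinset ⊆ F := cells_subset c b n i m0
  have hlcard : l.toFinset.card = l.length := List.toFinset_card_of_nodup (nodup_cells c b n i m0)
  have hmiss : (F \ l.toFinset).card < 2 ^ w := by
    rw [Finset.card_sdiff_of_subset hlF, hlcard]
    have : (cc + 1) * 2 ^ w = cc * 2 ^ w + 2 ^ w := by ring
    omega
  have hyrich : y ∈ richList C b n l := by
    rw [mem_richList]
    refine ⟨hy, ?_⟩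
    have hsub : hitsF C n F y ⊆ (hits C n l y).toFinset ∪
        (F \ l.toFinset).image fun z => z.unpair.1 := by
      intro j hj
      rw [mem_hitsF] at hj
      obtain ⟨hj, z, hz, hzj, hzc⟩ := hj
      rw [Finset.mem_union]
      by_cases hzl : z ∈ l
      · left
        rw [List.mem_toFinset, mem_hits]
        exact ⟨hj, z, hzl, hzj, hzc⟩
      · right
        refine Finset.mem_image.2 ⟨z, ?_, hzj⟩
        rw [Finset.mem_sdiff, List.mem_toFinset]
        exact ⟨hz, hzl⟩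
    have h1 := le_trans (Finset.card_le_card hsub) (Finset.card_union_le _ _)
    rw [List.toFinset_card_of_nodup (nodup_hits C n l y)] at h1
    have h2 : ((F \ l.toFinset).image fun z => z.unpair.1).card ≤ (F \ l.toFinset).card :=
      Finset.card_image_le
    have h3 : 2 ^ (29 * n - 3) = 2 ^ w + 2 ^ w := by
      rw [← two_mul, ← pow_succ']
      congr 1; omega
    show 2 ^ w ≤ _
    omega
  have hlen : (richList C b n l).length < 2 ^ (15 * n) := by
    refine hn0 n (by omega) l ?_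
    exact le_trans (Finset.card_le_card hlF) hlight
  obtain ⟨t, ht⟩ := List.mem_iff_getElem?.1 hyrich
  have ht' : t < 2 ^ (15 * n) := by
    obtain ⟨h, -⟩ := List.getElem?_eq_some_iff.1 ht
    omega
  -- the code of the program
  set N := i + 2 ^ (30 * n + 1) * (cc + 2 ^ (6 * n + 5) * t) with hN
  have hN1 : N % 2 ^ (30 * n + 1) = i := by
    rw [hN, Nat.add_mul_mod_self_left, Nat.mod_eq_of_lt hi]
  have hN2 : N / 2 ^ (30 * n + 1) = cc + 2 ^ (6 * n + 5) * t := by
    rw [hN, Nat.add_mul_div_left _ _ (by positivity), Nat.div_eq_of_lt hi, zero_add]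
  have hN3 : N / 2 ^ (30 * n + 1) % 2 ^ (6 * n + 5) = cc := by
    rw [hN2, Nat.add_mul_mod_self_left, Nat.mod_eq_of_lt hccB]
  have hN4 : N / 2 ^ (30 * n + 1) / 2 ^ (6 * n + 5) = t := by
    rw [hN2, Nat.add_mul_div_left _ _ (by positivity), Nat.div_eq_of_lt hccB, zero_add]
  have hNlt : N < 2 ^ (51 * n + 6) := by
    have e1 : cc + 2 ^ (6 * n + 5) * t < 2 ^ (6 * n + 5) * 2 ^ (15 * n) := by
      calc cc + 2 ^ (6 * n + 5) * t < 2 ^ (6 * n + 5) + 2 ^ (6 * n + 5) * t := by omega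
        _ = 2 ^ (6 * n + 5) * (t + 1) := by ring
        _ ≤ 2 ^ (6 * n + 5) * 2 ^ (15 * n) := Nat.mul_le_mul_left _ ht'
    have e2 : 2 ^ (51 * n + 6) = 2 ^ (30 * n + 1) * (2 ^ (6 * n + 5) * 2 ^ (15 * n)) := by
      rw [← pow_add, ← pow_add]; congr 1; ring
    rw [e2]
    calc N < 2 ^ (30 * n + 1) + 2 ^ (30 * n + 1) * (cc + 2 ^ (6 * n + 5) * t) := by omega
      _ = 2 ^ (30 * n + 1) * (cc + 2 ^ (6 * n + 5) * t + 1) := by ring
      _ ≤ _ := Nat.mul_le_mul_left _ e1
  have hmem : code (vecOf (outPres σ n i y)) ∈ machine code c σ C b (n, N) := by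
    unfold machine
    simp only
    rw [hN1, hN3, hN4]
    rw [Part.mem_bind_iff]
    refine ⟨m0, hm0, ?_⟩
    rw [← hl, ht]
    simp
  have hfin := hK n N _ hNlt hmem
  omega

end Pool.Agent.LibDimSpec
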