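import Pool.Agent.LibDimSpec.Local

open MeasureTheory Encodable
open scoped ENNReal

namespace Pool.Agent.LibDimSpec

variable {U : List Bool →. List Bool} {code : ℚ × ℚ → List Bool}

open Classical in
/-- Positions in the strip `i` met by `V`. -/
noncomputable def good (V : Set ℝ) (n i : ℕ) : Finset ℕ :=
  (Finset.range (2 ^ (30 * n))).filter fun j =>
    ∃ x ∈ V, (i : ℝ) * 2 ^ (30 * n) + j ≤ x * 2 ^ (60 * n) ∧
      x * 2 ^ (60 * n) < (i : ℝ) * 2 ^ (30 * n) + j + 1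

theorem mem_good {V : Set ℝ} {n i j : ℕ} : j ∈ good V n i ↔ j < 2 ^ (30 * n) ∧
    ∃ x ∈ V, (i : ℝ) * 2 ^ (30 * n) + j ≤ x * 2 ^ (60 * n) ∧
      x * 2 ^ (60 * n) < (i : ℝ) * 2 ^ (30 * n) + j + 1 := by
  classical
  unfold good
  rw [Finset.mem_filter, Finset.mem_range]

theorem volume_le_good {V : Set ℝ} (hV : V ⊆ Set.Ico 1 2) (n : ℕ) :
    volume V ≤ ((∑ i ∈ Finset.Ico (2 ^ (30 * n)) (2 * 2 ^ (30 * n)), (good V n i).card : ℕ) : ℝ≥0∞) *
      ENNReal.ofReal (1 / 2 ^ (60 * n)) := by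
  classical
  set h : ℕ := 2 ^ (30 * n) with hh
  have hhpos : 0 < h := by positivity
  have hH : (2 : ℝ) ^ (60 * n) = h * h := by rw [two_pow_sixty, hh]; push_cast; rfl
  have hsub : V ⊆ ⋃ p ∈ (Finset.Ico h (2 * h)).sigma (fun i => good V n i),
      Set.Ico (((p.1 : ℝ) * h + p.2) / (h * h)) (((p.1 : ℝ) * h + p.2 + 1) / (h * h)) := by
    intro x hx
    obtain ⟨hx1, hx2⟩ := hV hx
    have hx0 : 0 ≤ x * (h * h : ℝ) := by positivity
    set J := ⌊x * (h * h : ℝ)⌋₊ with hJ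
    have hJ1 : (J : ℝ) ≤ x * (h * h : ℝ) := Nat.floor_le hx0
    have hJ2 : x * (h * h : ℝ) < J + 1 := Nat.lt_floor_add_one _
    have hhR : (0 : ℝ) < h := by exact_mod_cast hhpos
    have hlow : h * h ≤ J := by
      apply Nat.le_floor
      push_cast
      nlinarith
    have hup : J < 2 * h * h := by
      rw [hJ, Nat.floor_lt hx0]
      push_cast
      have := mul_lt_mul_of_pos_right hx2 (mul_pos hhR hhR)
      linarith
    have hdm := Nat.div_add_mod J h
    have hmlt := Nat.mod_lt J hhpos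
    have hJR : (J : ℝ) = ((J / h : ℕ) : ℝ) * h + ((J % h : ℕ) : ℝ) := by
      have : (J : ℝ) = ((h * (J / h) + J % h : ℕ) : ℝ) := by rw [hdm]
      rw [this]; push_cast; ring
    refine Set.mem_biUnion (x := ⟨J / h, J % h⟩) ?_ ?_
    · simp only [Finset.coe_sigma, Set.mem_sigma_iff, Finset.mem_coe]
      refine ⟨?_, ?_⟩
      · rw [Finset.mem_Ico]
        exact ⟨(Nat.le_div_iff_mul_le hhpos).2 hlow, (Nat.div_lt_iff_lt_mul hhpos).2 hup⟩
      · rw [mem_good]
        refine ⟨hmlt, x, hx, ?_, ?_⟩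
        · have e : (2 : ℝ) ^ (30 * n) = h := by rw [hh]; push_cast; rfl
          rw [hH, e, ← hJR]; exact hJ1
        · have e : (2 : ℝ) ^ (30 * n) = h := by rw [hh]; push_cast; rfl
          rw [hH, e, ← hJR]; exact hJ2
    · simp only [Set.mem_Ico]
      rw [← hJR, div_le_iff₀ (by positivity), lt_div_iff₀ (by positivity)]
      exact ⟨hJ1, hJ2⟩
  refine le_trans (measure_mono hsub) (le_trans (measure_biUnion_finset_le _ _) ?_)
  have : ∀ p ∈ (Finset.Ico h (2 * h)).sigma (fun i => good V n i),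
      volume (Set.Ico (((p.1 : ℝ) * h + p.2) / (h * h)) (((p.1 : ℝ) * h + p.2 + 1) / (h * h))) ≤
        ENNReal.ofReal (1 / 2 ^ (60 * n)) := by
    intro p _
    rw [Real.volume_Ico, hH, ← sub_div]
    simp
  refine le_trans (Finset.sum_le_sum this) ?_
  rw [Finset.sum_const, nsmul_eq_mul, Finset.card_sigma]

/-- Some light strip is met often. -/
theorem exists_strip (c : Nat.Partrec.Code) (b : ℕ) {V : Set ℝ} {n : ℕ} (hn : 1 ≤ n)
    (hsum : 2 ^ (59 * n) ≤
      ∑ i ∈ Finset.Ico (2 ^ (30 * n)) (2 * 2 ^ (30 * n)), (good V n i).card) :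
    ∃ i ∈ Finset.Ico (2 ^ (30 * n)) (2 * 2 ^ (30 * n)),
      2 ^ (29 * n - 1) ≤ (good V n i).card ∧ (full c b n i).card ≤ 2 ^ (35 * n) := by
  by_contra hcon
  push Not at hcon
  set I := Finset.Ico (2 ^ (30 * n)) (2 * 2 ^ (30 * n)) with hI
  have hcardI : I.card = 2 ^ (30 * n) := by
    rw [hI, Nat.card_Ico]; omega
  have hle : ∀ i ∈ I, (good V n i).card * 2 ^ (35 * n) ≤
      (2 ^ (29 * n - 1) - 1) * 2 ^ (35 * n) + 2 ^ (30 * n) * (full c b n i).card := by
    intro i hi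
    by_cases hg : 2 ^ (29 * n - 1) ≤ (good V n i).card
    · have h1 := hcon i hi hg
      have h2 : (good V n i).card ≤ 2 ^ (30 * n) := by
        classical
        unfold good
        refine le_trans (Finset.card_filter_le _ _) ?_
        rw [Finset.card_range]
      calc (good V n i).card * 2 ^ (35 * n) ≤ 2 ^ (30 * n) * (full c b n i).card :=
            Nat.mul_le_mul h2 h1.le
        _ ≤ _ := Nat.le_add_left _ _
    · push Not at hg
      calc (good V n i).card * 2 ^ (35 * n) ≤ (2 ^ (29 * n - 1) - 1) * 2 ^ (35 * n) :=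
            Nat.mul_le_mul_right _ (by omega)
        _ ≤ _ := Nat.le_add_right _ _
  have hs := Finset.sum_le_sum hle
  rw [← Finset.sum_mul, Finset.sum_add_distrib, Finset.sum_const, smul_eq_mul,
    ← Finset.mul_sum, hcardI] at hs
  have h1 := sum_card_full c b n I
  have h2 : 2 ^ (59 * n) * 2 ^ (35 * n) ≤ 2 ^ (30 * n) * ((2 ^ (29 * n - 1) - 1) * 2 ^ (35 * n)) +
      2 ^ (30 * n) * 2 ^ (63 * n) :=
    le_trans (Nat.mul_le_mul_right _ hsum) (le_trans hs
      (Nat.add_le_add_left (Nat.mul_le_mul_left _ h1) _))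
  have h3 : 2 ^ (30 * n) * ((2 ^ (29 * n - 1) - 1) * 2 ^ (35 * n)) + 2 ^ (65 * n) =
      2 ^ (94 * n - 1) := by
    have e1 : 2 ^ (29 * n - 1) - 1 + 1 = 2 ^ (29 * n - 1) :=
      Nat.sub_add_cancel Nat.one_le_two_pow
    have e2 : 2 ^ (65 * n) = 2 ^ (30 * n) * (1 * 2 ^ (35 * n)) := by
      rw [one_mul, ← pow_add]; congr 1; ring
    rw [e2, ← mul_add, ← add_mul, e1, ← pow_add, ← pow_add]
    congr 1; omega
  have h4 : 2 ^ (59 * n) * 2 ^ (35 * n) = 2 * 2 ^ (94 * n - 1) := by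
    rw [← pow_add, ← pow_succ']; congr 1; omega
  have h5 : 2 ^ (30 * n) * 2 ^ (63 * n) = 2 ^ (93 * n) := by
    rw [← pow_add]; congr 1; ring
  have h6 : 2 ^ (93 * n) ≤ 2 ^ (94 * n - 1) :=
    Nat.pow_le_pow_right (by norm_num) (by omega)
  have h7 : 0 < 2 ^ (65 * n) := by positivity
  rw [h4, h5] at h2
  omega

end Pool.Agent.LibDimSpec
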