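import Pool.Agent.LibDimSpec.Defs

namespace Pool.Agent.LibDimSpec

/-- The number written in binary by a bit string. -/
def natVal (l : List Bool) : ℕ := l.foldl (fun a b => 2 * a + cond b 1 0) 0

theorem natVal_concat (l : List Bool) (b : Bool) :
    natVal (l ++ [b]) = 2 * natVal l + cond b 1 0 := by
  simp [natVal, List.foldl_append]

theorem primrec_natVal : Primrec natVal := by
  unfold natVal
  refine Primrec.list_foldl (α := List Bool) (β := Bool) (σ := ℕ) (f := fun l => l)
    (g := fun _ => 0) (h := fun _ p => 2 * p.1 + cond p.2 1 0) Primrec.id (Primrec.const 0) ?_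
  refine Primrec.nat_add.comp ?_ ?_
  · exact Primrec.nat_mul.comp (Primrec.const 2) (Primrec.fst.comp Primrec.snd)
  · exact Primrec.cond (Primrec.snd.comp Primrec.snd) (Primrec.const 1) (Primrec.const 0)

theorem exists_bits (k : ℕ) : ∀ N : ℕ, N < 2 ^ k →
    ∃ l : List Bool, l.length = k ∧ ∀ l', natVal (l' ++ l) % 2 ^ k = N := by
  induction k with
  | zero =>
    intro N hN
    refine ⟨[], rfl, fun l' => ?_⟩
    simp at hN
    simp [hN, Nat.mod_one]
  | succ k ih =>
    intro N hN
    have hN2 : N / 2 < 2 ^ k := by
      rw [pow_succ] at hN; omega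
    obtain ⟨l, hl, h⟩ := ih (N / 2) hN2
    refine ⟨l ++ [decide (N % 2 = 1)], by simp [hl], fun l' => ?_⟩
    rw [← List.append_assoc, natVal_concat]
    have h1 := h l'
    have h2 := Nat.div_add_mod (natVal (l' ++ l)) (2 ^ k)
    rw [h1] at h2
    have hb : cond (decide (N % 2 = 1)) 1 0 = N % 2 := by
      rcases Nat.mod_two_eq_zero_or_one N with h0 | h0 <;> simp [h0]
    rw [hb, ← h2]
    have h3 : 2 * (2 ^ k * (natVal (l' ++ l) / 2 ^ k) + N / 2) + N % 2
        = N + 2 ^ (k + 1) * (natVal (l' ++ l) / 2 ^ k) := by
      have := Nat.div_add_mod N 2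
      rw [pow_succ]
      nlinarith
    rw [h3, Nat.add_mul_mod_self_left, Nat.mod_eq_of_lt hN]

/-- The machine that reads a number `n` in unary, then `g n` more bits, and applies `F`. -/
def unaryMachine (F : ℕ × ℕ →. List Bool) (g : ℕ → ℕ) : List Bool →. List Bool := fun v =>
  cond (decide (v.length = v.idxOf false + 1 + g (v.idxOf false)))
    (F (v.idxOf false, natVal v % 2 ^ g (v.idxOf false))) Part.none

theorem primrec_two_pow {α : Type*} [Primcodable α] {f : α → ℕ} (hf : Primrec f) :
    Primrec fun a => 2 ^ f a := by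
  have h : Primrec fun n : ℕ => 2 ^ n := by
    have := Primrec.nat_rec₁ (f := fun _ IH => 2 * IH) 1
      (Primrec₂.mk (Primrec.nat_mul.comp (Primrec.const 2) Primrec.snd))
    refine this.of_eq fun n => ?_
    induction n with
    | zero => rfl
    | succ n ih => simp only [pow_succ, ← ih]; rw [mul_comm]
  exact h.comp hf

theorem partrec_unaryMachine {F : ℕ × ℕ →. List Bool} {g : ℕ → ℕ} (hF : Partrec F)
    (hg : Primrec g) : Partrec (unaryMachine F g) := by
  unfold unaryMachine
  have hidx : Primrec fun v : List Bool => v.idxOf false :=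
    Primrec.list_idxOf.comp (Primrec.const false) Primrec.id
  refine Partrec.cond ?_ ?_ Partrec.none
  · have : PrimrecPred fun v : List Bool =>
        v.length = v.idxOf false + 1 + g (v.idxOf false) := by
      refine Primrec.eq.comp Primrec.list_length ?_
      exact Primrec.nat_add.comp (Primrec.nat_add.comp hidx (Primrec.const 1)) (hg.comp hidx)
    exact this.decide.to_comp
  · refine hF.comp (Primrec.to_comp ?_)
    exact Primrec.pair hidx (Primrec.nat_mod.comp primrec_natVal (primrec_two_pow (hg.comp hidx)))

theorem prefixFree_unaryMachine (F : ℕ × ℕ →. List Bool) (g : ℕ → ℕ) :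
    PrefixFree (unaryMachine F g) := by
  intro p q hp hq hpq
  have key : ∀ v : List Bool, (unaryMachine F g v).Dom →
      v.length = v.idxOf false + 1 + g (v.idxOf false) := by
    intro v hv
    by_contra hne
    simp [unaryMachine, hne] at hv
  have h1 := key p hp
  have h2 := key q hq
  obtain ⟨t, rfl⟩ := hpq
  have hmem : false ∈ p := by
    rw [← List.idxOf_lt_length_iff]; omega
  have hidx : (p ++ t).idxOf false = p.idxOf false := List.idxOf_append_of_mem hmem
  rw [hidx] at h2
  have : t.length = 0 := by
    rw [List.length_append] at h2; omega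
  rw [List.length_eq_zero_iff] at this
  simp [this]

theorem cpx_le_of_mem {U : List Bool →. List Bool} {p w : List Bool} (h : w ∈ U p) :
    cpx U w ≤ p.length :=
  Nat.sInf_le ⟨p, rfl, h⟩

/-- Upper bounds for prefix-free complexity. -/
theorem cpx_upper {U : List Bool →. List Bool} (hU : UniversalPrefixFree U)
    {F : ℕ × ℕ →. List Bool} {g : ℕ → ℕ} (hF : Partrec F) (hg : Primrec g) :
    ∃ c : ℕ, ∀ n N w, N < 2 ^ g n → w ∈ F (n, N) → cpx U w ≤ n + g n + c := by
  obtain ⟨c, hc⟩ := hU.optimal _ (partrec_unaryMachine hF hg) (prefixFree_unaryMachine F g)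
  refine ⟨c + 1, fun n N w hN hw => ?_⟩
  obtain ⟨l, hl, hv⟩ := exists_bits (g n) N hN
  set v : List Bool := List.replicate n true ++ false :: l with hvdef
  have hidx : v.idxOf false = n := by
    rw [hvdef, List.idxOf_append_of_notMem]
    · simp
    · intro h
      have := List.eq_of_mem_replicate h
      simp at this
  have hlen : v.length = n + 1 + g n := by
    rw [hvdef]; simp [hl]; omega
  have hmem : w ∈ unaryMachine F g v := by
    unfold unaryMachine
    rw [hidx]
    have : v = (List.replicate n true ++ [false]) ++ l := by simp [hvdef]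
    have h2 : natVal v % 2 ^ g n = N := by rw [this]; exact hv _
    simp only [hlen, decide_true, cond_true, h2]
    exact hw
  obtain ⟨p', hp', hle⟩ := hc v w hmem
  have := cpx_le_of_mem hp'
  omega

/-- Every string has a program. -/
theorem exists_program {U : List Bool →. List Bool} (hU : UniversalPrefixFree U)
    (w : List Bool) : ∃ p, p.length = cpx U w ∧ w ∈ U p := by
  have hne : {n : ℕ | ∃ p : List Bool, p.length = n ∧ w ∈ U p}.Nonempty := by
    have hF : Partrec (fun _ : ℕ × ℕ => (Part.some w : Part (List Bool))) :=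
      (Computable.const w).partrec
    obtain ⟨c, hc⟩ := hU.optimal _ (partrec_unaryMachine hF (Primrec.const 0))
      (prefixFree_unaryMachine _ _)
    obtain ⟨p', hp', -⟩ := hc [false] w (by
      unfold unaryMachine
      simp)
    exact ⟨_, p', rfl, hp'⟩
  exact Nat.sInf_mem hne

end Pool.Agent.LibDimSpec
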